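import Mathlib

/-!
Alternating cochains on lists of points: boundary, barycentric subdivision and the homotopy.
A cochain is a function `F : List P → R`; every operator below is the transpose of the usual
chain operator.
-/

namespace Pool.Agent.MP_17e467_an

section Algebra

variable {P R : Type*} [CommRing R]

/-- `bd F l` is the value of `F` on the boundary of the list `l`. -/
def bd : (List P → R) → List P → R
  | _, [] => 0
  | F, a :: l => F l - bd (fun m => F (a :: m)) l

@[simp] lemma bd_nil (F : List P → R) : bd F [] = 0 := rfl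

lemma bd_cons (F : List P → R) (a : P) (l : List P) :
    bd F (a :: l) = F l - bd (fun m => F (a :: m)) l := rfl

lemma bd_sub (F G : List P → R) (l : List P) :
    bd (fun m => F m - G m) l = bd F l - bd G l := by
  induction l generalizing F G with
  | nil => simp
  | cons a l ih => rw [bd_cons, bd_cons, bd_cons, ih]; ring

lemma bd_eq_zero {F : List P → R} {l : List P}
    (h : ∀ m, m.Sublist l → m.length + 1 = l.length → F m = 0) : bd F l = 0 := by
  induction l generalizing F with
  | nil => rfl
  | cons a l ih =>
    rw [bd_cons, h l (List.sublist_cons_self a l) rfl, ih, sub_zero]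
    intro m hm hl
    exact h _ (hm.cons_cons a) (by simp [hl])

lemma bd_congr {F G : List P → R} {l : List P}
    (h : ∀ m, m.Sublist l → m.length + 1 = l.length → F m = G m) : bd F l = bd G l := by
  have h1 := bd_sub F G l
  rw [bd_eq_zero (F := fun m => F m - G m) (fun m hm hl => by rw [h m hm hl, sub_self])] at h1
  exact (sub_eq_zero.mp h1.symm)

lemma bd_bd (F : List P → R) (l : List P) : bd (bd F) l = 0 := by
  induction l generalizing F with
  | nil => rfl
  | cons a l ih =>
    rw [bd_cons]
    have h1 : (fun m => bd F (a :: m)) = fun m => F m - bd (fun m' => F (a :: m')) m := by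
      funext m; rfl
    rw [h1, bd_sub, ih]; ring

lemma bd_neg (F : List P → R) (l : List P) : bd (fun m => - F m) l = - bd F l := by
  induction l generalizing F with
  | nil => simp
  | cons a l ih => rw [bd_cons, bd_cons, ih]; ring

/-- Subdivision on lists of length `n`, with cone points given by `b`. -/
def sd (b : List P → P) : ℕ → (List P → R) → List P → R
  | 0, F, l => F l
  | n + 1, F, l => bd (sd b n (fun m => F (b l :: m))) l

/-- The homotopy between the identity and the subdivision. -/
def hD (b : List P → P) : ℕ → (List P → R) → List P → R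
  | 0, _, _ => 0
  | n + 1, F, l => F (b l :: l) - bd (hD b n (fun m => F (b l :: m))) l

lemma sd_zero (b : List P → P) (F : List P → R) (l : List P) : sd b 0 F l = F l := rfl

lemma sd_succ (b : List P → P) (n : ℕ) (F : List P → R) (l : List P) :
    sd b (n + 1) F l = bd (sd b n (fun m => F (b l :: m))) l := rfl

lemma hD_zero (b : List P → P) (F : List P → R) (l : List P) : hD b 0 F l = 0 := rfl

lemma hD_succ (b : List P → P) (n : ℕ) (F : List P → R) (l : List P) :
    hD b (n + 1) F l = F (b l :: l) - bd (hD b n (fun m => F (b l :: m))) l := rfl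

lemma sd_sub (b : List P → P) (n : ℕ) (F G : List P → R) (l : List P) :
    sd b n (fun m => F m - G m) l = sd b n F l - sd b n G l := by
  induction n generalizing F G l with
  | zero => rfl
  | succ n ih =>
    rw [sd_succ, sd_succ, sd_succ, ← bd_sub]
    congr 1
    funext m
    exact ih _ _ _

lemma hD_sub (b : List P → P) (n : ℕ) (F G : List P → R) (l : List P) :
    hD b n (fun m => F m - G m) l = hD b n F l - hD b n G l := by
  induction n generalizing F G l with
  | zero => simp [hD_zero]
  | succ n ih =>
    rw [hD_succ, hD_succ, hD_succ]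
    have : bd (hD b n fun m => F (b l :: m) - G (b l :: m)) l
        = bd (hD b n fun m => F (b l :: m)) l - bd (hD b n fun m => G (b l :: m)) l := by
      rw [← bd_sub]
      congr 1
      funext m
      exact ih _ _ _
    rw [this]; ring

/-- Subdivision is a chain map. -/
lemma sd_bd (b : List P → P) (n : ℕ) (F : List P → R) (l : List P) (hl : l.length = n + 1) :
    sd b (n + 1) (bd F) l = bd (sd b n F) l := by
  induction n generalizing F l with
  | zero =>
    rw [sd_succ]
    have h1 : sd b 0 (fun m => bd F (b l :: m))
        = fun m => F m - bd (fun m' => F (b l :: m')) m := by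
      funext m; rfl
    have h2 : sd b 0 F = F := by funext m; rfl
    rw [h1, bd_sub, bd_bd, sub_zero, h2]
  | succ n ih =>
    rw [sd_succ]
    have h1 : sd b (n + 1) (fun m => bd F (b l :: m))
        = fun m => sd b (n + 1) F m - sd b (n + 1) (bd (fun m' => F (b l :: m'))) m := by
      funext m
      rw [← sd_sub]
      rfl
    rw [h1, bd_sub]
    have h2 : bd (sd b (n + 1) (bd (fun m' => F (b l :: m')))) l
        = bd (bd (sd b n (fun m' => F (b l :: m')))) l := by
      apply bd_congr
      intro m _ hm
      exact ih _ _ (by omega)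
    rw [h2, bd_bd, sub_zero]

/-- The homotopy formula. -/
lemma sd_homotopy (b : List P → P) (n : ℕ) (F : List P → R) (l : List P)
    (hl : l.length = n + 1) :
    F l - sd b (n + 1) F l = hD b (n + 1) (bd F) l + bd (hD b n F) l := by
  induction n generalizing F l with
  | zero =>
    rw [sd_succ, hD_succ]
    have h1 : hD b 0 F = fun _ => (0 : R) := by funext m; rfl
    have h2 : hD b 0 (fun m => bd F (b l :: m)) = fun _ => (0 : R) := by funext m; rfl
    have h3 : sd b 0 (fun m => F (b l :: m)) = fun m => F (b l :: m) := by funext m; rfl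
    have h4 : bd (fun _ => (0 : R)) l = 0 := bd_eq_zero (fun _ _ _ => rfl)
    rw [h1, h2, h3, h4, bd_cons]; ring
  | succ n ih =>
    rw [sd_succ, hD_succ, bd_cons]
    set Fc : List P → R := fun m => F (b l :: m) with hFc
    have h1 : hD b (n + 1) (fun m => bd F (b l :: m))
        = fun m => hD b (n + 1) F m - hD b (n + 1) (bd Fc) m := by
      funext m
      rw [← hD_sub]
      rfl
    have h2 : bd (fun m => Fc m - sd b (n + 1) Fc m) l
        = bd (fun m => hD b (n + 1) (bd Fc) m - - bd (hD b n Fc) m) l := by
      apply bd_congr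
      intro m _ hm
      rw [ih Fc m (by omega)]; ring
    rw [bd_sub, bd_sub, bd_neg, bd_bd] at h2
    rw [h1, bd_sub]
    linear_combination h2

/-- A cochain is alternating if swapping two neighbours changes the sign. -/
def Alt (F : List P → R) : Prop :=
  ∀ (l₁ : List P) (a c : P) (l₂ : List P), F (l₁ ++ a :: c :: l₂) = - F (l₁ ++ c :: a :: l₂)

lemma Alt.cone {F : List P → R} (h : Alt F) (x : P) : Alt (fun m => F (x :: m)) :=
  fun l₁ a c l₂ => h (x :: l₁) a c l₂

lemma Alt.bd {F : List P → R} (h : Alt F) : Alt (bd F) := by
  intro l₁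
  induction l₁ generalizing F with
  | nil =>
    intro a c l₂
    simp only [List.nil_append, bd_cons]
    have : MP_17e467_an.bd (fun m => F (a :: c :: m)) l₂
        = - MP_17e467_an.bd (fun m => F (c :: a :: m)) l₂ := by
      rw [← bd_neg]
      congr 1
      funext m
      exact h [] a c m
    rw [this]; ring
  | cons x l₁ ih =>
    intro a c l₂
    simp only [List.cons_append, bd_cons]
    rw [h l₁ a c l₂, ih (h.cone x) a c l₂]; ring

lemma Alt.sd {b : List P → P}
    (hb : ∀ (l₁ : List P) (a c : P) (l₂ : List P), b (l₁ ++ a :: c :: l₂) = b (l₁ ++ c :: a :: l₂))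
    {F : List P → R} (h : Alt F) (n : ℕ) : Alt (sd b n F) := by
  induction n generalizing F with
  | zero => exact h
  | succ n ih =>
    intro l₁ a c l₂
    rw [sd_succ, sd_succ, hb l₁ a c l₂]
    exact (ih (h.cone _)).bd l₁ a c l₂

lemma Alt.hD {b : List P → P}
    (hb : ∀ (l₁ : List P) (a c : P) (l₂ : List P), b (l₁ ++ a :: c :: l₂) = b (l₁ ++ c :: a :: l₂))
    {F : List P → R} (h : Alt F) (n : ℕ) : Alt (hD b n F) := by
  induction n generalizing F with
  | zero => intro l₁ a c l₂; simp [hD_zero]
  | succ n ih =>
    intro l₁ a c l₂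
    have h1 : F (b (l₁ ++ c :: a :: l₂) :: (l₁ ++ a :: c :: l₂))
        = - F (b (l₁ ++ c :: a :: l₂) :: (l₁ ++ c :: a :: l₂)) :=
      (h.cone (b (l₁ ++ c :: a :: l₂))) l₁ a c l₂
    rw [hD_succ, hD_succ, hb l₁ a c l₂, (ih (h.cone _)).bd l₁ a c l₂, h1]
    ring

lemma Alt.move {F : List P → R} (h : Alt F) (l₁ : List P) (x : P) (B l₂ : List P) :
    F (l₁ ++ x :: (B ++ l₂)) = (-1) ^ B.length * F (l₁ ++ (B ++ x :: l₂)) := by
  induction B generalizing l₁ with
  | nil => simp
  | cons y B ih =>
    have h1 := ih (l₁ ++ [y])
    simp only [List.append_assoc, List.cons_append, List.nil_append] at h1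
    rw [List.cons_append, h, h1, List.length_cons, List.cons_append]
    ring

lemma Alt.swap {F : List P → R} (h : Alt F) (l₁ A B : List P) :
    F (l₁ ++ (A ++ B)) = (-1) ^ (A.length * B.length) * F (l₁ ++ (B ++ A)) := by
  induction A generalizing l₁ with
  | nil => simp
  | cons x A ih =>
    have h1 := ih (l₁ ++ [x])
    simp only [List.append_assoc, List.cons_append, List.nil_append] at h1
    rw [List.cons_append, h1, h.move l₁ x B A, List.length_cons]
    ring

lemma bd_map {P' : Type*} (T : P' → P) (F : List P → R) (l : List P') :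
    bd F (l.map T) = bd (fun m => F (m.map T)) l := by
  induction l generalizing F with
  | nil => rfl
  | cons a l ih => rw [List.map_cons, bd_cons, bd_cons, ih]; rfl

lemma sd_map {b : List P → P} {T : P → P} (hT : ∀ l, b (l.map T) = T (b l)) (n : ℕ)
    (F : List P → R) (l : List P) :
    sd b n F (l.map T) = sd b n (fun m => F (m.map T)) l := by
  induction n generalizing F l with
  | zero => rfl
  | succ n ih =>
    rw [sd_succ, sd_succ, bd_map, hT]
    congr 1
    funext m
    rw [ih]
    rfl

lemma hD_map {b : List P → P} {T : P → P} (hT : ∀ l, b (l.map T) = T (b l)) (n : ℕ)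
    (F : List P → R) (l : List P) :
    hD b n F (l.map T) = hD b n (fun m => F (m.map T)) l := by
  induction n generalizing F l with
  | zero => rfl
  | succ n ih =>
    rw [hD_succ, hD_succ, bd_map, hT]
    congr 1
    congr 1
    funext m
    rw [ih]
    rfl

end Algebra

end Pool.Agent.MP_17e467_an
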