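import Mathlib

/-!
# Finite decomposition complexity and finite dynamical complexity

Definitions for the problem: finite decomposition complexity of a countable group, free and
(topologically) amenable actions, and finite dynamical complexity of the transformation groupoid.
-/

namespace Pool.Agent.MP_17e467_an

/-! ### Finite decomposition complexity of a group -/

section FDC

variable {M : Type*}

/-- The family `𝒳` of subspaces of `(M, d)` is uniformly bounded. -/
def UniformlyBounded (d : M → M → ℝ) (𝒳 : Set (Set M)) : Prop :=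
  ∃ R : ℝ, ∀ Z ∈ 𝒳, ∀ x ∈ Z, ∀ y ∈ Z, d x y ≤ R

/-- The members of `𝒰` are pairwise at distance `> r`. -/
def PairwiseFar (d : M → M → ℝ) (r : ℝ) (𝒰 : Set (Set M)) : Prop :=
  ∀ A ∈ 𝒰, ∀ B ∈ 𝒰, A ≠ B → ∀ a ∈ A, ∀ b ∈ B, r < d a b

/-- The family `𝒳` `r`-decomposes over the family `𝒴`: every `Z ∈ 𝒳` is `U ∪ V`, where `U` and `V`
are unions of members of `𝒴` that are pairwise at distance `> r`. -/
def RDecomposes (d : M → M → ℝ) (r : ℝ) (𝒳 𝒴 : Set (Set M)) : Prop :=
  ∀ Z ∈ 𝒳, ∃ 𝒰 𝒱 : Set (Set M), 𝒰 ⊆ 𝒴 ∧ 𝒱 ⊆ 𝒴 ∧ Z = ⋃₀ 𝒰 ∪ ⋃₀ 𝒱 ∧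
    PairwiseFar d r 𝒰 ∧ PairwiseFar d r 𝒱

/-- The smallest class of families of subspaces of `(M, d)` which contains the uniformly bounded
families and contains `𝒳` whenever for every `r > 0` it contains some `𝒴` over which `𝒳`
`r`-decomposes. -/
def fdcFamilies (d : M → M → ℝ) : Set (Set (Set M)) :=
  ⋂₀ {𝔇 : Set (Set (Set M)) | (∀ 𝒳, UniformlyBounded d 𝒳 → 𝒳 ∈ 𝔇) ∧
    ∀ 𝒳, (∀ r : ℝ, 0 < r → ∃ 𝒴 ∈ 𝔇, RDecomposes d r 𝒳 𝒴) → 𝒳 ∈ 𝔇}

/-- `d` is a proper left-invariant metric on the group `Γ`. -/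
structure IsProperLeftInvariantMetric {Γ : Type*} [Group Γ] (d : Γ → Γ → ℝ) : Prop where
  eq_zero_iff : ∀ x y, d x y = 0 ↔ x = y
  symm : ∀ x y, d x y = d y x
  triangle : ∀ x y z, d x z ≤ d x y + d y z
  left_invariant : ∀ g x y, d (g * x) (g * y) = d x y
  proper : ∀ R : ℝ, {x | d 1 x ≤ R}.Finite

/-- `Γ` has finite decomposition complexity: it carries a proper left-invariant metric, and
`{Γ}` lies in the class `𝔇` for every such metric. -/
def HasFDC (Γ : Type*) [Group Γ] : Prop :=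
  (∃ d : Γ → Γ → ℝ, IsProperLeftInvariantMetric d) ∧
    ∀ d : Γ → Γ → ℝ, IsProperLeftInvariantMetric d → {Set.univ} ∈ fdcFamilies d

end FDC

/-! ### Free and amenable actions -/

section Actions

variable (Γ X : Type*) [Group Γ] [MulAction Γ X]

/-- The action is free. -/
def FreeAction : Prop := ∀ (γ : Γ) (x : X), γ • x = x → γ = 1

/-- The action is (topologically) amenable: for every finite set `F ⊆ Γ`, every compact set
`C ⊆ X` and every `ε > 0` there is a continuous map `m` from `X` to the probability measures on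
`Γ` with `‖m (γ • x) - γ • m x‖₁ ≤ ε` for all `γ ∈ F` and `x ∈ C`. -/
def AmenableAction [TopologicalSpace X] : Prop :=
  ∀ (F : Finset Γ) (C : Set X), IsCompact C → ∀ ε : ℝ, 0 < ε →
    ∃ m : X → Γ → ℝ, (∀ δ, Continuous (fun x => m x δ)) ∧ (∀ x δ, 0 ≤ m x δ) ∧
      (∀ x, HasSum (m x) 1) ∧
      ∀ γ ∈ F, ∀ x ∈ C, Summable (fun δ => |m (γ • x) δ - m x (γ⁻¹ * δ)|) ∧
        ∑' δ, |m (γ • x) δ - m x (γ⁻¹ * δ)| ≤ ε

end Actions

/-! ### The transformation groupoid and finite dynamical complexity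

The transformation groupoid `Γ ⋉ X` has arrow space `Γ × X`.  The arrow `(γ, x)` has source `x` and
range `γ • x`; the product of `(γ', γ • x)` and `(γ, x)` is `(γ' * γ, x)`, the inverse of `(γ, x)`
is `(γ⁻¹, γ • x)`, and the unit at `x` is `(1, x)`. -/

section Groupoid

variable {Γ X : Type*} [Group Γ] [MulAction Γ X]

/-- `H` is (the arrow set of) a subgroupoid of `Γ ⋉ X`: it is closed under inverses and products
(and so contains the units at the sources and ranges of its arrows). -/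
structure IsSubgroupoid (H : Set (Γ × X)) : Prop where
  inv_mem : ∀ (γ : Γ) (x : X), (γ, x) ∈ H → (γ⁻¹, γ • x) ∈ H
  mul_mem : ∀ (γ γ' : Γ) (x : X), (γ, x) ∈ H → (γ', γ • x) ∈ H → (γ' * γ, x) ∈ H

/-- The unit space of a subgroupoid, as a subset of `X`. -/
def unitSpace (H : Set (Γ × X)) : Set X := {x | ((1 : Γ), x) ∈ H}

/-- The subgroupoid generated by a set of arrows. -/
def generated (S : Set (Γ × X)) : Set (Γ × X) :=
  ⋂₀ {H : Set (Γ × X) | IsSubgroupoid H ∧ S ⊆ H}

/-- The arrows of `K` whose source and range lie in `U`. -/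
def restrictTo (K : Set (Γ × X)) (U : Set X) : Set (Γ × X) :=
  {g | g ∈ K ∧ g.2 ∈ U ∧ g.1 • g.2 ∈ U}

variable [TopologicalSpace Γ] [TopologicalSpace X]

/-- `H` is decomposable over the class `𝒞`: for every open `K ⊆ H` whose closure in `H` is compact
there is an open cover `H⁽⁰⁾ = U₀ ∪ U₁` such that the subgroupoid generated by the arrows of `K`
with source and range in `Uᵢ` is contained in a member of `𝒞`, for `i = 0, 1`. -/
def DecomposableOver (H : Set (Γ × X)) (𝒞 : Set (Set (Γ × X))) : Prop :=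
  ∀ K : Set (Γ × X), IsOpen K → (∃ C, IsCompact C ∧ K ⊆ C ∧ C ⊆ H) →
    ∃ U₀ U₁ : Set X, IsOpen U₀ ∧ IsOpen U₁ ∧ U₀ ∪ U₁ = unitSpace H ∧
      (∃ H₀ ∈ 𝒞, generated (restrictTo K U₀) ⊆ H₀) ∧
      (∃ H₁ ∈ 𝒞, generated (restrictTo K U₁) ⊆ H₁)

/-- `𝒞` is a class of open subgroupoids which contains all relatively compact open subgroupoids
and is closed under decomposability. -/
structure IsClosedClass (𝒞 : Set (Set (Γ × X))) : Prop where
  isOpen_subgroupoid : ∀ H ∈ 𝒞, IsOpen H ∧ IsSubgroupoid H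
  relatively_compact : ∀ H : Set (Γ × X), IsOpen H → IsSubgroupoid H →
    (∃ C, IsCompact C ∧ H ⊆ C) → H ∈ 𝒞
  decomposable : ∀ H : Set (Γ × X), IsOpen H → IsSubgroupoid H → DecomposableOver H 𝒞 → H ∈ 𝒞

variable (Γ X)

/-- The transformation groupoid `Γ ⋉ X` has finite dynamical complexity: it lies in the smallest
class of open subgroupoids that contains all relatively compact open subgroupoids and is closed
under decomposability. -/
def HasFiniteDynamicalComplexity : Prop :=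
  (Set.univ : Set (Γ × X)) ∈ ⋂₀ {𝒞 : Set (Set (Γ × X)) | IsClosedClass 𝒞}

end Groupoid

end Pool.Agent.MP_17e467_an
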