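import Mathlib

/-!
A nonnegative function on `ZMod q` which vanishes on `N` consecutive points and whose Fourier
coefficients vanish for the frequencies `1, …, q / N + 1` is zero.
-/

namespace Pool.Agent.MP_17e467_an

open Finset

lemma cos_sum_sq (S : Finset ℕ) (A : ℕ → ℝ) (θ : ℝ) :
    (∑ j ∈ S, A j * Real.cos (j * θ)) ^ 2 + (∑ j ∈ S, A j * Real.sin (j * θ)) ^ 2
      = ∑ j ∈ S, ∑ l ∈ S, A j * A l * Real.cos ((((j : ℤ) - (l : ℤ) : ℤ) : ℝ) * θ) := by
  rw [sq, sq, Finset.sum_mul_sum, Finset.sum_mul_sum, ← Finset.sum_add_distrib]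
  apply Finset.sum_congr rfl
  intro j _
  rw [← Finset.sum_add_distrib]
  apply Finset.sum_congr rfl
  intro l _
  push_cast
  rw [sub_mul, Real.cos_sub]
  ring

lemma kernel_identity {ι : Type*} (K : Finset ι) (g : ι → ℝ) (θ : ι → ℝ) (S : Finset ℕ)
    (A : ℕ → ℝ) (c : ℝ) :
    ∑ k ∈ K, g k * ((Real.cos (θ k) - c) * ((∑ j ∈ S, A j * Real.cos (j * θ k)) ^ 2
        + (∑ j ∈ S, A j * Real.sin (j * θ k)) ^ 2))
      = ∑ j ∈ S, ∑ l ∈ S, A j * A l *
          ((1 / 2) * (∑ k ∈ K, g k * Real.cos ((((j : ℤ) - (l : ℤ) + 1 : ℤ) : ℝ) * θ k))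
          + (1 / 2) * (∑ k ∈ K, g k * Real.cos ((((j : ℤ) - (l : ℤ) - 1 : ℤ) : ℝ) * θ k))
          - c * (∑ k ∈ K, g k * Real.cos ((((j : ℤ) - (l : ℤ) : ℤ) : ℝ) * θ k))) := by
  have h1 : ∀ k ∈ K, g k * ((Real.cos (θ k) - c) * ((∑ j ∈ S, A j * Real.cos (j * θ k)) ^ 2
        + (∑ j ∈ S, A j * Real.sin (j * θ k)) ^ 2))
      = ∑ j ∈ S, ∑ l ∈ S, A j * A l * ((1 / 2) * (g k * Real.cos ((((j : ℤ) - (l : ℤ) + 1 : ℤ) : ℝ) * θ k))
          + (1 / 2) * (g k * Real.cos ((((j : ℤ) - (l : ℤ) - 1 : ℤ) : ℝ) * θ k))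
          - c * (g k * Real.cos ((((j : ℤ) - (l : ℤ) : ℤ) : ℝ) * θ k))) := by
    intro k _
    rw [cos_sum_sq, Finset.mul_sum, Finset.mul_sum]
    apply Finset.sum_congr rfl
    intro j _
    rw [Finset.mul_sum, Finset.mul_sum]
    apply Finset.sum_congr rfl
    intro l _
    have e1 : (((j : ℤ) - (l : ℤ) + 1 : ℤ) : ℝ) * θ k
        = (((j : ℤ) - (l : ℤ) : ℤ) : ℝ) * θ k + θ k := by push_cast; ring
    have e2 : (((j : ℤ) - (l : ℤ) - 1 : ℤ) : ℝ) * θ k
        = (((j : ℤ) - (l : ℤ) : ℤ) : ℝ) * θ k - θ k := by push_cast; ring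
    rw [e1, e2, Real.cos_add, Real.cos_sub]
    ring
  rw [Finset.sum_congr rfl h1, Finset.sum_comm]
  apply Finset.sum_congr rfl
  intro j _
  rw [Finset.sum_comm]
  apply Finset.sum_congr rfl
  intro l _
  rw [← Finset.mul_sum, Finset.sum_sub_distrib, Finset.sum_add_distrib, ← Finset.mul_sum,
    ← Finset.mul_sum, ← Finset.mul_sum]

lemma sine_identity (r : ℕ) (G c : ℝ) (A : ℕ → ℝ)
    (hA : A = fun j : ℕ => Real.sin (Real.pi * j / (r + 1))) :
    ∑ j ∈ Icc 1 r, ∑ l ∈ Icc 1 r, A j * A l *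
      ((1 / 2) * (if (j : ℤ) - (l : ℤ) + 1 = 0 then G else 0)
        + (1 / 2) * (if (j : ℤ) - (l : ℤ) - 1 = 0 then G else 0)
        - c * (if (j : ℤ) - (l : ℤ) = 0 then G else 0))
      = G * (Real.cos (Real.pi / (r + 1)) - c) * ∑ j ∈ Icc 1 r, A j ^ 2 := by
  rw [Finset.mul_sum]
  apply Finset.sum_congr rfl
  intro j hj
  rw [mem_Icc] at hj
  have h1 : ∀ l ∈ Icc 1 r, A j * A l *
      ((1 / 2) * (if (j : ℤ) - (l : ℤ) + 1 = 0 then G else 0)
        + (1 / 2) * (if (j : ℤ) - (l : ℤ) - 1 = 0 then G else 0)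
        - c * (if (j : ℤ) - (l : ℤ) = 0 then G else 0))
      = (if l = j + 1 then (1 / 2) * G * A j * A l else 0)
        + (if l = j - 1 then (1 / 2) * G * A j * A l else 0)
        - (if l = j then c * G * A j * A l else 0) := by
    intro l hl
    rw [mem_Icc] at hl
    have i1 : ((j : ℤ) - (l : ℤ) + 1 = 0) ↔ l = j + 1 := by omega
    have i2 : ((j : ℤ) - (l : ℤ) - 1 = 0) ↔ l = j - 1 := by omega
    have i3 : ((j : ℤ) - (l : ℤ) = 0) ↔ l = j := by omega
    simp only [i1, i2, i3]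
    split_ifs <;> ring
  rw [Finset.sum_congr rfl h1, Finset.sum_sub_distrib, Finset.sum_add_distrib,
    Finset.sum_ite_eq', Finset.sum_ite_eq', Finset.sum_ite_eq']
  have hr : (0 : ℝ) < (r : ℝ) + 1 := by positivity
  have h2 : (if j + 1 ∈ Icc 1 r then (1 / 2) * G * A j * A (j + 1) else 0)
      = (1 / 2) * G * A j * A (j + 1) := by
    split_ifs with h
    · rfl
    · rw [mem_Icc] at h
      have hjr : j = r := by omega
      have h3 : A (j + 1) = 0 := by
        rw [hA, hjr]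
        simp only
        have : Real.pi * ((r + 1 : ℕ) : ℝ) / (r + 1) = Real.pi := by
          push_cast; field_simp
        rw [this, Real.sin_pi]
      rw [h3]; ring
  have h3 : (if j - 1 ∈ Icc 1 r then (1 / 2) * G * A j * A (j - 1) else 0)
      = (1 / 2) * G * A j * A (j - 1) := by
    split_ifs with h
    · rfl
    · rw [mem_Icc] at h
      have hj1 : j - 1 = 0 := by omega
      have h3 : A (j - 1) = 0 := by
        rw [hj1, hA]
        simp
      rw [h3]; ring
  have h4 : (if j ∈ Icc 1 r then c * G * A j * A j else 0) = c * G * A j * A j := by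
    rw [if_pos (mem_Icc.mpr hj)]
  rw [h2, h3, h4]
  have h5 : A (j + 1) + A (j - 1) = 2 * Real.cos (Real.pi / (r + 1)) * A j := by
    rw [hA]
    simp only
    have e1 : Real.pi * ((j + 1 : ℕ) : ℝ) / (r + 1) = Real.pi * j / (r + 1) + Real.pi / (r + 1) := by
      push_cast; ring
    have e2 : Real.pi * ((j - 1 : ℕ) : ℝ) / (r + 1) = Real.pi * j / (r + 1) - Real.pi / (r + 1) := by
      rw [Nat.cast_sub hj.1]; push_cast; ring
    rw [e1, e2, Real.sin_add, Real.sin_sub]
    ring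
  linear_combination (1 / 2) * G * A j * h5

theorem eq_zero_of_fourier {q : ℕ} [NeZero q] {N : ℕ} (hN : 1 ≤ N) (hNq : N ≤ q)
    (g : ZMod q → ℝ) (hg : ∀ k, 0 ≤ g k) (a : ZMod q) (hgap : ∀ t : ℕ, t < N → g (a + t) = 0)
    (hF : ∀ n : ℕ, 1 ≤ n → n ≤ q / N + 1 →
      ∑ k, (g k : ℂ) * ZMod.stdAddChar (-((n : ZMod q) * k)) = 0) :
    ∀ k, g k = 0 := by
  have hq0 : 0 < q := Nat.pos_of_ne_zero (NeZero.ne q)
  have hq : (0 : ℝ) < q := by exact_mod_cast hq0
  have hpi := Real.pi_pos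
  have hNR : (1 : ℝ) ≤ N := by exact_mod_cast hN
  have hNqR : (N : ℝ) ≤ q := by exact_mod_cast hNq
  set r := q / N + 1 with hr
  set θ0 : ℝ := 2 * Real.pi * (a.val + ((N : ℝ) - 1) / 2) / q with hθ0
  set θ : ZMod q → ℝ := fun k => 2 * Real.pi * k.val / q - θ0 with hθ
  set G := ∑ k, g k with hG
  -- the cosine sums
  have hC : ∀ n : ℕ, 1 ≤ n → n ≤ r → ∑ k, g k * Real.cos ((n : ℝ) * θ k) = 0 := by
    intro n h1 h2
    have h3 := hF n h1 h2
    have h4 : ∑ k, (g k : ℂ) * Complex.exp (((-(n * θ k) : ℝ) : ℂ) * Complex.I) = 0 := by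
      have h5 : ∀ k, (g k : ℂ) * Complex.exp (((-(n * θ k) : ℝ) : ℂ) * Complex.I)
          = ((g k : ℂ) * ZMod.stdAddChar (-((n : ZMod q) * k)))
            * Complex.exp (((n * θ0 : ℝ) : ℂ) * Complex.I) := by
        intro k
        have e1 : (-((n : ZMod q) * k)) = ((-((n : ℤ) * (k.val : ℤ)) : ℤ) : ZMod q) := by
          push_cast
          rw [ZMod.natCast_val, ZMod.cast_id]
        rw [e1, ZMod.stdAddChar_coe, mul_assoc, ← Complex.exp_add]
        congr 2
        rw [hθ]
        push_cast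
        ring
      rw [Finset.sum_congr rfl (fun k _ => h5 k), ← Finset.sum_mul, h3, zero_mul]
    have h6 := congrArg Complex.re h4
    rw [Complex.re_sum, Complex.zero_re] at h6
    rw [← h6]
    apply Finset.sum_congr rfl
    intro k _
    rw [Complex.re_ofReal_mul, Complex.exp_ofReal_mul_I_re, Real.cos_neg]
  have hCz : ∀ m : ℤ, |m| ≤ r → ∑ k, g k * Real.cos ((m : ℝ) * θ k) = if m = 0 then G else 0 := by
    intro m hm
    split_ifs with h0
    · subst h0; simp [hG]
    · obtain ⟨n, hn⟩ : ∃ n : ℕ, |m| = n := ⟨m.natAbs, Int.abs_eq_natAbs m⟩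
      have hn1 : 1 ≤ n := by
        have := Int.one_le_abs h0
        omega
      have hnr : n ≤ r := by omega
      rw [← hC n hn1 hnr]
      apply Finset.sum_congr rfl
      intro k _
      congr 1
      have : (n : ℝ) = |(m : ℝ)| := by
        rw [← Int.cast_abs, hn]; simp
      rw [this]
      rcases abs_choice (m : ℝ) with h | h
      · rw [h]
      · rw [h, neg_mul, Real.cos_neg]
  set A : ℕ → ℝ := fun j => Real.sin (Real.pi * j / (r + 1)) with hA
  set η : ℝ := Real.pi * N / q with hη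
  have hkey := kernel_identity (Finset.univ : Finset (ZMod q)) g θ (Icc 1 r) A (Real.cos η)
  have hrhs : ∑ j ∈ Icc 1 r, ∑ l ∈ Icc 1 r, A j * A l *
          ((1 / 2) * (∑ k, g k * Real.cos ((((j : ℤ) - (l : ℤ) + 1 : ℤ) : ℝ) * θ k))
          + (1 / 2) * (∑ k, g k * Real.cos ((((j : ℤ) - (l : ℤ) - 1 : ℤ) : ℝ) * θ k))
          - Real.cos η * (∑ k, g k * Real.cos ((((j : ℤ) - (l : ℤ) : ℤ) : ℝ) * θ k)))
      = G * (Real.cos (Real.pi / (r + 1)) - Real.cos η) * ∑ j ∈ Icc 1 r, A j ^ 2 := by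
    rw [← sine_identity r G (Real.cos η) A hA]
    apply Finset.sum_congr rfl
    intro j hj
    apply Finset.sum_congr rfl
    intro l hl
    rw [mem_Icc] at hj hl
    rw [hCz _ (by rw [abs_le]; constructor <;> omega), hCz _ (by rw [abs_le]; constructor <;> omega),
      hCz _ (by rw [abs_le]; constructor <;> omega)]
  rw [hrhs] at hkey
  have hη1 : η ≤ Real.pi := by
    rw [hη, div_le_iff₀ hq]
    nlinarith
  have hη0 : 0 < η := by rw [hη]; positivity
  -- the left-hand side is nonpositive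
  have hneg : ∑ k, g k * ((Real.cos (θ k) - Real.cos η) * ((∑ j ∈ Icc 1 r, A j * Real.cos (j * θ k)) ^ 2
        + (∑ j ∈ Icc 1 r, A j * Real.sin (j * θ k)) ^ 2)) ≤ 0 := by
    apply Finset.sum_nonpos
    intro k _
    by_cases ht : (k - a).val < N
    · have h1 : g k = 0 := by
        have := hgap _ ht
        rwa [ZMod.natCast_val, ZMod.cast_id, add_sub_cancel] at this
      rw [h1, zero_mul]
    · push Not at ht
      set t := (k - a).val with htdef
      have htq : t < q := ZMod.val_lt _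
      apply mul_nonpos_of_nonneg_of_nonpos (hg k)
      apply mul_nonpos_of_nonpos_of_nonneg _ (by positivity)
      rw [sub_nonpos]
      obtain ⟨e, he⟩ : ∃ e : ℤ, (k.val : ℤ) = a.val + t - e * q := by
        have h1 : ((k.val : ℤ) : ZMod q) = ((a.val + t : ℤ) : ZMod q) := by
          push_cast
          rw [ZMod.natCast_val, ZMod.cast_id, ZMod.natCast_val, ZMod.cast_id, htdef,
            ZMod.natCast_val, ZMod.cast_id, add_sub_cancel]
        rw [ZMod.intCast_eq_intCast_iff_dvd_sub] at h1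
        obtain ⟨e, he⟩ := h1
        exact ⟨e, by linarith⟩
      have he' : (k.val : ℝ) = a.val + t - e * q := by exact_mod_cast he
      set x : ℝ := 2 * Real.pi * (t - ((N : ℝ) - 1) / 2) / q with hx
      have h1 : θ k = x - e * (2 * Real.pi) := by
        simp only [hθ, hθ0, hx]
        rw [he']
        field_simp
        ring
      rw [h1, Real.cos_sub_int_mul_two_pi]
      have htN : (N : ℝ) ≤ t := by exact_mod_cast ht
      have htq' : (t : ℝ) + 1 ≤ q := by exact_mod_cast htq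
      have hx1 : η ≤ x := by
        rw [hη, hx]
        apply div_le_div_of_nonneg_right _ hq.le
        nlinarith
      have hx2 : η ≤ 2 * Real.pi - x := by
        have : 2 * Real.pi - x = 2 * Real.pi * (q - (t - ((N : ℝ) - 1) / 2)) / q := by
          rw [hx]; field_simp
        rw [this, hη]
        apply div_le_div_of_nonneg_right _ hq.le
        nlinarith
      rcases le_total x Real.pi with hxp | hxp
      · exact Real.cos_le_cos_of_nonneg_of_le_pi hη0.le hxp hx1
      · have : Real.cos x = Real.cos (2 * Real.pi - x) := by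
          rw [Real.cos_two_pi_sub]
        rw [this]
        exact Real.cos_le_cos_of_nonneg_of_le_pi hη0.le (by linarith) hx2
  rw [hkey] at hneg
  have hr1 : 1 ≤ r := by rw [hr]; exact Nat.le_add_left 1 _
  have hrpos : (0 : ℝ) < (r : ℝ) + 1 := by positivity
  have hlt : Real.pi / (r + 1) < η := by
    rw [hη, div_lt_div_iff₀ hrpos hq]
    have h1 : q < N * (q / N + 1) := Nat.lt_mul_div_succ q (by omega)
    have h2 : (q : ℝ) < N * (r : ℝ) := by rw [hr]; exact_mod_cast h1
    nlinarith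
  have hcos : Real.cos η < Real.cos (Real.pi / (r + 1)) :=
    Real.cos_lt_cos_of_nonneg_of_le_pi (by positivity) hη1 hlt
  have hA1 : 0 < ∑ j ∈ Icc 1 r, A j ^ 2 := by
    apply Finset.sum_pos'
    · intro j _; positivity
    · refine ⟨1, by simp [hr1], ?_⟩
      have : 0 < A 1 := by
        simp only [hA]
        apply Real.sin_pos_of_pos_of_lt_pi
        · positivity
        · rw [div_lt_iff₀ hrpos]
          push_cast
          have : (1 : ℝ) ≤ r := by exact_mod_cast hr1
          nlinarith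
      positivity
  have hGle : G ≤ 0 := by
    by_contra hpos
    push Not at hpos
    have : 0 < G * (Real.cos (Real.pi / (r + 1)) - Real.cos η) * ∑ j ∈ Icc 1 r, A j ^ 2 := by
      apply mul_pos (mul_pos hpos (by linarith)) hA1
    linarith
  have hG0 : G = 0 := le_antisymm hGle (Finset.sum_nonneg (fun k _ => hg k))
  intro k
  exact (Finset.sum_eq_zero_iff_of_nonneg (fun k _ => hg k)).mp hG0 k (Finset.mem_univ k)

end Pool.Agent.MP_17e467_an
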