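import Pool.Agent.MP_17e467_an.ZqBorsukUlam
import Pool.Agent.MP_17e467_an.Fourier

/-!
Common zeros of Fourier coefficients: the key proposition.
-/

namespace Pool.Agent.MP_17e467_an

open Finset

/-- Translate of a point of the simplex. -/
def shift {q : ℕ} (k : ZMod q) (p : ZMod q → ℝ) : ZMod q → ℝ := fun j => p (j + k)

lemma shift_continuous {q : ℕ} (k : ZMod q) : Continuous (shift (q := q) k) :=
  continuous_pi (fun j => continuous_apply (j + k))

lemma shift_mem {q : ℕ} [NeZero q] (k : ZMod q) {p : ZMod q → ℝ} (hp : p ∈ bdSimplex q) :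
    shift k p ∈ bdSimplex q := by
  refine ⟨fun j => hp.1 _, ?_, ?_⟩
  · rw [← hp.2.1]
    exact Equiv.sum_comp (Equiv.addRight k) p
  · obtain ⟨j, hj⟩ := hp.2.2
    exact ⟨j - k, by simp only [shift, sub_add_cancel]; exact hj⟩

lemma shift_rot {q : ℕ} (k : ZMod q) (p : ZMod q → ℝ) : shift k (rot p) = shift (k - 1) p := by
  funext j
  simp only [shift, rot]
  congr 1
  ring

theorem key (q : ℕ) [Fact q.Prime] (hq2 : q ≠ 2) {J : Type} [Fintype J]
    (g : J → (ZMod q → ℝ) → ℝ) (hcont : ∀ j, ContinuousOn (g j) (bdSimplex q))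
    (hpos : ∀ j p, 0 ≤ g j p) (i : J → ZMod q) (hi : ∀ j, i j ≠ 0) (N : J → ℕ)
    (hN : ∀ j, 1 ≤ N j) (hNq : ∀ j, N j ≤ q) (hcard : 2 * ∑ j, (q / N j + 1) + 2 ≤ q) :
    ∃ p ∈ bdSimplex q, ∀ j, ∀ a : ZMod q,
      (∀ t : ℕ, t < N j → g j (shift (a + t * i j) p) = 0) → ∀ k, g j (shift k p) = 0 := by
  classical
  have hprime : q.Prime := Fact.out
  obtain ⟨p, hp, hz⟩ := zq_borsuk_ulam q hq2 (ι := Σ j : J, Fin (q / N j + 1))
    (by rw [Fintype.card_sigma]; simpa using hcard)
    (fun x => -((((x.2 : ℕ) + 1 : ℕ) : ZMod q) * (i x.1)⁻¹))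
    (by
      intro x
      rw [neg_ne_zero]
      apply mul_ne_zero _ (inv_ne_zero (hi _))
      rw [Ne, ZMod.natCast_eq_zero_iff]
      intro hdvd
      have h1 := Nat.le_of_dvd (Nat.succ_pos _) hdvd
      have h2 := x.2.isLt
      have h3 : q / N x.1 + 1 ≤ ∑ j, (q / N j + 1) :=
        Finset.single_le_sum (f := fun j => q / N j + 1) (fun _ _ => Nat.zero_le _)
          (Finset.mem_univ x.1)
      omega)
    (fun x p => ∑ k : ZMod q, (g x.1 (shift (i x.1 * k) p) : ℂ)
      * ZMod.stdAddChar (-((((x.2 : ℕ) + 1 : ℕ) : ZMod q) * k)))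
    (by
      intro x
      apply continuousOn_finsetSum
      intro k _
      apply ContinuousOn.mul _ continuousOn_const
      apply Complex.continuous_ofReal.comp_continuousOn
      exact (hcont x.1).comp (shift_continuous _).continuousOn (fun p hp => shift_mem _ hp))
    (by
      intro x p hp
      rw [Finset.mul_sum, ← Equiv.sum_comp (Equiv.addRight (i x.1)⁻¹)]
      apply Finset.sum_congr rfl
      intro k _
      simp only [Equiv.coe_addRight]
      rw [shift_rot]
      have h1 : i x.1 * (k + (i x.1)⁻¹) - 1 = i x.1 * k := by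
        rw [mul_add, mul_inv_cancel₀ (hi _)]; ring
      have h2 : -((((x.2 : ℕ) + 1 : ℕ) : ZMod q) * (k + (i x.1)⁻¹))
          = -((((x.2 : ℕ) + 1 : ℕ) : ZMod q) * (i x.1)⁻¹)
            + -((((x.2 : ℕ) + 1 : ℕ) : ZMod q) * k) := by ring
      rw [h1, h2, AddChar.map_add_eq_mul]
      ring)
  refine ⟨p, hp, ?_⟩
  intro j a hgap k
  have h1 := eq_zero_of_fourier (hN j) (hNq j) (fun k => g j (shift (i j * k) p))
    (fun k => hpos _ _) ((i j)⁻¹ * a)
    (by
      intro t ht
      have h2 : i j * ((i j)⁻¹ * a + t) = a + t * i j := by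
        rw [mul_add, ← mul_assoc, mul_inv_cancel₀ (hi _)]; ring
      rw [h2]
      exact hgap t ht)
    (by
      intro n hn1 hn2
      have h3 := hz ⟨j, ⟨n - 1, by omega⟩⟩
      simp only at h3
      rw [Nat.sub_add_cancel hn1] at h3
      exact h3)
    ((i j)⁻¹ * k)
  rwa [← mul_assoc, mul_inv_cancel₀ (hi _), one_mul] at h1

end Pool.Agent.MP_17e467_an
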