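import Pool.Agent.MP_17e467_an.Cochains

/-!
The Vandermonde cochain and the pairing lemma.
-/

namespace Pool.Agent.MP_17e467_an

section Vdm

variable {R : Type*} [CommRing R]

/-- The product of all differences of a list. -/
def vdm : List R → R
  | [] => 1
  | a :: l => (l.map (fun x => x - a)).prod * vdm l

lemma vdm_cons (a : R) (l : List R) :
    vdm (a :: l) = (l.map (fun x => x - a)).prod * vdm l := rfl

lemma vdm_alt (l₁ : List R) (a c : R) (l₂ : List R) :
    vdm (l₁ ++ a :: c :: l₂) = - vdm (l₁ ++ c :: a :: l₂) := by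
  induction l₁ with
  | nil =>
    simp only [List.nil_append, vdm_cons, List.map_cons, List.prod_cons]
    ring
  | cons x l₁ ih =>
    simp only [List.cons_append, vdm_cons, ih, List.map_append, List.map_cons, List.prod_append,
      List.prod_cons]
    ring

lemma vdm_add (t : R) (l : List R) : vdm (l.map (fun x => x + t)) = vdm l := by
  induction l with
  | nil => rfl
  | cons a l ih =>
    rw [List.map_cons, vdm_cons, vdm_cons, ih, List.map_map]
    congr 2
    apply List.map_congr_left
    intro x _
    simp

lemma nodup_of_vdm_ne_zero {l : List R} (h : vdm l ≠ 0) : l.Nodup := by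
  induction l with
  | nil => simp
  | cons a l ih =>
    rw [vdm_cons] at h
    rw [List.nodup_cons]
    refine ⟨fun ha => h ?_, ih (right_ne_zero_of_mul h)⟩
    have : (l.map (fun x => x - a)).prod = 0 := by
      apply List.prod_eq_zero
      rw [List.mem_map]
      exact ⟨a, ha, sub_self a⟩
    rw [this, zero_mul]

lemma vdm_ne_zero_of_nodup [IsDomain R] {l : List R} (h : l.Nodup) : vdm l ≠ 0 := by
  induction l with
  | nil => simp [vdm]
  | cons a l ih =>
    rw [List.nodup_cons] at h
    rw [vdm_cons]
    apply mul_ne_zero _ (ih h.2)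
    apply List.prod_ne_zero
    rw [List.mem_map]
    rintro ⟨x, hx, hxa⟩
    exact h.1 (sub_eq_zero.mp hxa ▸ hx)

lemma vdm_ofFn {n : ℕ} (v : Fin n → R) : vdm (List.ofFn v) = (Matrix.vandermonde v).det := by
  rw [Matrix.det_vandermonde]
  induction n with
  | zero => simp [vdm]
  | succ n ih =>
    rw [List.ofFn_succ, vdm_cons, ih, Fin.prod_univ_succ, Fin.prod_Ioi_zero, List.map_ofFn,
      List.prod_ofFn]
    congr 1
    apply Finset.prod_congr rfl
    intro i _
    rw [Fin.prod_Ioi_succ]

lemma bd_ofFn {P : Type*} {n : ℕ} (F : List P → R) (x : Fin (n + 1) → P) :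
    bd F (List.ofFn x)
      = ∑ i : Fin (n + 1), (-1) ^ (i : ℕ) * F (List.ofFn (fun j => x (i.succAbove j))) := by
  induction n generalizing F with
  | zero =>
    simp [List.ofFn_succ, bd_cons]
  | succ n ih =>
    rw [List.ofFn_succ, bd_cons, ih, Fin.sum_univ_succ (n := n + 1)]
    have h1 : (-1 : R) ^ ((0 : Fin (n + 1 + 1)) : ℕ)
        * F (List.ofFn fun j => x ((0 : Fin (n + 1 + 1)).succAbove j))
        = F (List.ofFn fun i => x i.succ) := by simp
    rw [h1, sub_eq_add_neg, ← Finset.sum_neg_distrib]
    congr 1
    apply Finset.sum_congr rfl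
    intro i _
    have h2 : (List.ofFn fun j => x (i.succ.succAbove j))
        = x 0 :: List.ofFn (fun j => x (i.succAbove j).succ) := by
      rw [List.ofFn_succ]
      simp
    rw [h2]
    simp [pow_succ]

lemma bd_vdm_ofFn {n : ℕ} (v : Fin (n + 2) → R) :
    ∑ i : Fin (n + 2), (-1) ^ (i : ℕ) * vdm (List.ofFn (fun j => v (i.succAbove j))) = 0 := by
  let M : Matrix (Fin (n + 2)) (Fin (n + 2)) R :=
    fun i j => Fin.cases (motive := fun _ => R) 1 (fun k : Fin (n + 1) => v i ^ (k : ℕ)) j
  have h1 : M.det = 0 := by
    apply Matrix.det_zero_of_column_eq (i := 0) (j := Fin.succ 0)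
    · exact (Fin.succ_ne_zero 0).symm
    · intro k
      change (1 : R) = v k ^ (((0 : Fin (n + 1)) : ℕ))
      simp
  rw [Matrix.det_succ_column_zero] at h1
  rw [← h1]
  apply Finset.sum_congr rfl
  intro i _
  rw [vdm_ofFn]
  have h2 : M i 0 = 1 := rfl
  rw [h2, mul_one]
  congr 1

lemma bd_vdm {P : Type*} (μ : P → R) {l : List P} (hl : 2 ≤ l.length) :
    bd (fun m => vdm (m.map μ)) l = 0 := by
  have key : ∀ (k : ℕ) (x : Fin k → P), 2 ≤ k →
      bd (fun m => vdm (m.map μ)) (List.ofFn x) = 0 := by
    intro k x hk
    obtain ⟨n, rfl⟩ := Nat.exists_eq_add_of_le' hk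
    rw [bd_ofFn]
    simp only [List.map_ofFn]
    exact bd_vdm_ofFn (μ ∘ x)
  have h := key l.length l.get hl
  rwa [List.ofFn_get] at h

end Vdm

section Pairing

variable {R : Type*} [Field R]

lemma ofFn_succAbove {α : Type*} {n : ℕ} (f : ℕ → α) (i : Fin (n + 1)) :
    List.ofFn (fun j : Fin n => f (i.succAbove j : ℕ))
      = (List.range i).map f ++ (List.range (n - i)).map (fun j => f (i + 1 + j)) := by
  have hi := i.isLt
  apply List.ext_getElem
  · simp; omega
  · intro j h1 h2
    simp only [List.length_ofFn] at h1
    rw [List.getElem_ofFn, List.getElem_append]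
    split_ifs with h
    · simp only [List.length_map, List.length_range] at h
      rw [Fin.succAbove_of_castSucc_lt _ _ (by simpa [Fin.lt_def] using h)]
      simp
    · simp only [List.length_map, List.length_range, not_lt] at h
      rw [Fin.succAbove_of_le_castSucc _ _ (by simpa [Fin.le_def] using h)]
      simp
      congr 1
      omega

/-- The pairing lemma: an alternating translation invariant cochain has boundary-value zero
on the standard facet. -/
lemma pairing {n : ℕ} (hn : Odd n) (h2 : (2 : R) ≠ 0) {G : List (ZMod (n + 2)) → R} (hG : Alt G)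
    (hT : ∀ m : List (ZMod (n + 2)), m.length = n → G (m.map (fun x => x + 1)) = G m) :
    bd G (List.ofFn (fun i : Fin (n + 1) => (((i : ℕ) + 1 : ℕ) : ZMod (n + 2)))) = 0 := by
  have hT' : ∀ (c : ℕ) (m : List (ZMod (n + 2))), m.length = n →
      G (m.map (fun x => x + c)) = G m := by
    intro c
    induction c with
    | zero => intro m _; simp
    | succ c ih =>
      intro m hm
      have h3 : m.map (fun x => x + ((c + 1 : ℕ) : ZMod (n + 2)))
          = (m.map (fun x => x + (c : ZMod (n + 2)))).map (fun x => x + 1) := by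
        rw [List.map_map]
        apply List.map_congr_left
        intro x _
        simp [add_assoc]
      rw [h3, hT _ (by simpa using hm), ih m hm]
  rw [bd_ofFn]
  set f : ℕ → ZMod (n + 2) := fun j => ((j + 1 : ℕ) : ZMod (n + 2)) with hf
  set a : Fin (n + 1) → R := fun i => G (List.ofFn (fun j : Fin n => f (i.succAbove j : ℕ)))
    with ha
  have key : ∀ i : Fin (n + 1), a i = a i.rev := by
    intro i
    have hi := i.isLt
    obtain ⟨k, hk⟩ : ∃ k, n = (i : ℕ) + k := ⟨n - i, by omega⟩
    have hrev : (i.rev : ℕ) = k := by rw [Fin.val_rev]; omega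
    simp only [ha]
    rw [ofFn_succAbove, ofFn_succAbove, hrev]
    have hk1 : n - (i : ℕ) = k := by omega
    have hk2 : n - k = (i : ℕ) := by omega
    rw [hk1, hk2]
    set A := (List.range i).map f
    set B := (List.range k).map (fun j => f (i + 1 + j))
    rw [← hT' (k + 1) (A ++ B) (by simp [A, B, hk])]
    have h5 : (A ++ B).map (fun x => x + ((k + 1 : ℕ) : ZMod (n + 2)))
        = (List.range i).map (fun j => f (k + 1 + j)) ++ (List.range k).map f := by
      rw [List.map_append]
      congr 1
      · simp only [A, List.map_map]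
        apply List.map_congr_left
        intro j _
        simp only [Function.comp, hf]
        push_cast
        ring
      · simp only [B, List.map_map]
        apply List.map_congr_left
        intro j _
        simp only [Function.comp, hf]
        have : (((n + 2 : ℕ) : ZMod (n + 2))) = 0 := ZMod.natCast_self _
        have h6 : ((n : ZMod (n + 2))) = (i : ℕ) + (k : ZMod (n + 2)) := by
          have := congrArg (fun t : ℕ => (t : ZMod (n + 2))) hk
          push_cast at this
          exact this
        push_cast at this ⊢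
        linear_combination this - h6
    rw [h5]
    have h7 := hG.swap [] ((List.range i).map (fun j => f (k + 1 + j))) ((List.range k).map f)
    simp only [List.nil_append, List.length_map, List.length_range] at h7
    rw [h7]
    have h8 : Even ((i : ℕ) * k) := by
      rcases Nat.even_or_odd (i : ℕ) with h | h
      · exact h.mul_right _
      · apply Even.mul_left
        rw [hk] at hn
        by_contra hc
        rw [Nat.not_even_iff_odd] at hc
        exact (Nat.not_even_iff_odd.mpr hn) (h.add_odd hc)
    rw [h8.neg_one_pow, one_mul]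
  have h9 : ∑ i : Fin (n + 1), (-1) ^ (i : ℕ) * a i = - ∑ i : Fin (n + 1), (-1) ^ (i : ℕ) * a i := by
    conv_lhs => rw [← Equiv.sum_comp Fin.revPerm]
    rw [← Finset.sum_neg_distrib]
    apply Finset.sum_congr rfl
    intro i _
    rw [Fin.revPerm_apply, ← key i]
    have hi := i.isLt
    obtain ⟨k, hk⟩ : ∃ k, n = (i : ℕ) + k := ⟨n - i, by omega⟩
    have hrev : (i.rev : ℕ) = k := by rw [Fin.val_rev]; omega
    rw [hrev]
    have : (-1 : R) ^ k = - (-1) ^ (i : ℕ) := by
      have h10 : (-1 : R) ^ ((i : ℕ) + k) = -1 := by
        rw [← hk]; exact hn.neg_one_pow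
      rw [pow_add] at h10
      rcases Nat.even_or_odd (i : ℕ) with h | h
      · rw [h.neg_one_pow] at h10 ⊢
        linear_combination h10
      · rw [h.neg_one_pow] at h10 ⊢
        linear_combination - h10
    rw [this]; ring
  have h11 : (2 : R) * ∑ i : Fin (n + 1), (-1) ^ (i : ℕ) * a i = 0 := by
    linear_combination h9
  exact (mul_eq_zero.mp h11).resolve_left h2

end Pairing

end Pool.Agent.MP_17e467_an
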