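import Pool.Agent.MP_17e467_an.Support
import Pool.Agent.MP_17e467_an.Vdm

/-!
For every labelling `μ` of the boundary of the simplex on `ZMod q` with `μ (rot p) = μ p + 1`
there are `q - 1` points, arbitrarily close to each other, with pairwise distinct labels.
-/

namespace Pool.Agent.MP_17e467_an

/-- The boundary of the standard simplex on `ZMod q`. -/
def bdSimplex (q : ℕ) [NeZero q] : Set (ZMod q → ℝ) :=
  {p | (∀ k, 0 ≤ p k) ∧ ∑ k, p k = 1 ∧ ∃ k, p k = 0}

/-- The cyclic shift. -/
def rot {q : ℕ} (p : ZMod q → ℝ) : ZMod q → ℝ := fun k => p (k - 1)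

/-- The facet of the simplex opposite to the vertex `k`. -/
def facet (q : ℕ) [NeZero q] (k : ZMod q) : Set (ZMod q → ℝ) :=
  {p | (∀ j, 0 ≤ p j) ∧ ∑ j, p j = 1 ∧ p k = 0}

lemma facet_subset (q : ℕ) [NeZero q] (k : ZMod q) : facet q k ⊆ bdSimplex q :=
  fun _ hp => ⟨hp.1, hp.2.1, k, hp.2.2⟩

lemma facet_convex (q : ℕ) [NeZero q] (k : ZMod q) : Convex ℝ (facet q k) := by
  intro x hx y hy a b ha hb hab
  refine ⟨fun j => ?_, ?_, ?_⟩
  · simp only [Pi.add_apply, Pi.smul_apply, smul_eq_mul]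
    have := mul_nonneg ha (hx.1 j)
    have := mul_nonneg hb (hy.1 j)
    linarith
  · simp only [Pi.add_apply, Pi.smul_apply, smul_eq_mul]
    rw [Finset.sum_add_distrib, ← Finset.mul_sum, ← Finset.mul_sum, hx.2.1, hy.2.1]
    linarith
  · simp only [Pi.add_apply, Pi.smul_apply, smul_eq_mul, hx.2.2, hy.2.2]
    ring

lemma facet_rot {q : ℕ} [NeZero q] {k : ZMod q} {p : ZMod q → ℝ} (hp : p ∈ facet q k) :
    rot p ∈ facet q (k + 1) := by
  refine ⟨fun j => hp.1 _, ?_, ?_⟩
  · rw [← hp.2.1]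
    exact Equiv.sum_comp (Equiv.subRight (1 : ZMod q)) p
  · simp only [rot, add_sub_cancel_right]
    exact hp.2.2

/-- `rot` as a linear map. -/
def rotL (q : ℕ) : (ZMod q → ℝ) →ₗ[ℝ] (ZMod q → ℝ) where
  toFun := rot
  map_add' _ _ := rfl
  map_smul' _ _ := rfl

lemma bary_map_rot {q : ℕ} [NeZero q] (l : List (ZMod q → ℝ)) : bary (l.map rot) = rot (bary l) :=
  bary_map (rotL q) l

/-- The vertices of the simplex. -/
def vtx (q : ℕ) (j : ZMod q) : ZMod q → ℝ := Pi.single j 1

lemma rot_vtx (q : ℕ) (j : ZMod q) : rot (vtx q j) = vtx q (j + 1) := by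
  funext k
  unfold rot vtx
  by_cases h : k = j + 1
  · subst h; simp
  · rw [Pi.single_eq_of_ne (h := h), Pi.single_eq_of_ne]
    intro h'
    exact h (by rw [← h']; ring)

lemma vtx_facet (q : ℕ) [NeZero q] {j k : ZMod q} (h : k ≠ j) : vtx q j ∈ facet q k := by
  refine ⟨fun i => ?_, ?_, ?_⟩
  · unfold vtx
    by_cases hi : i = j
    · subst hi; simp
    · rw [Pi.single_eq_of_ne (h := hi)]
  · simp [vtx]
  · simp [vtx, Pi.single_eq_of_ne h]

section Main

variable {n : ℕ} (μ : (ZMod (n + 2) → ℝ) → ZMod (n + 2))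

/-- The Vandermonde cochain of the labelling. -/
def Vm (l : List (ZMod (n + 2) → ℝ)) : ZMod (n + 2) := vdm (l.map μ)

/-- The iterated subdivisions of the Vandermonde cochain. -/
noncomputable def Fm (t : ℕ) : List (ZMod (n + 2) → ℝ) → ZMod (n + 2) :=
  sdIter (n + 1) (Vm μ) t

lemma Vm_alt : Alt (Vm μ) := by
  intro l₁ a c l₂
  simp only [Vm, List.map_append, List.map_cons]
  exact vdm_alt _ _ _ _

lemma Fm_alt (t : ℕ) : Alt (Fm μ t) := by
  induction t with
  | zero => exact Vm_alt μ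
  | succ t ih => exact ih.sd bary_swap (n + 1)

lemma sd_of_zero {P R : Type*} [CommRing R] (b : List P → P) (k : ℕ) (l : List P) :
    sd b k (fun _ => (0 : R)) l = 0 := by
  have := sd_sub b k (fun _ => (0 : R)) (fun _ => (0 : R)) l
  simpa using this

lemma hD_of_zero {P R : Type*} [CommRing R] (b : List P → P) (k : ℕ) (l : List P) :
    hD b k (fun _ => (0 : R)) l = 0 := by
  have := hD_sub b k (fun _ => (0 : R)) (fun _ => (0 : R)) l
  simpa using this

lemma Fm_closed (t : ℕ) (l : List (ZMod (n + 2) → ℝ)) (hl : l.length = n + 2) :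
    bd (Fm μ t) l = 0 := by
  induction t generalizing l with
  | zero => exact bd_vdm μ (by omega)
  | succ t ih =>
    have h1 : Fm μ (t + 1) = sd bary (n + 1) (Fm μ t) := rfl
    rw [h1, ← sd_bd bary (n + 1) (Fm μ t) l hl,
      sd_congr (convex_univ) (G := fun _ => 0) hl (fun _ _ => trivial)
        (fun m hm _ => ih m hm)]
    exact sd_of_zero _ _ _

variable {μ}

lemma Fm_rot (hμ : ∀ p ∈ bdSimplex (n + 2), μ (rot p) = μ p + 1) (t : ℕ) (k : ZMod (n + 2))
    (l : List (ZMod (n + 2) → ℝ)) (hl : l.length = n + 1) (hk : ∀ x ∈ l, x ∈ facet (n + 2) k) :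
    Fm μ t (l.map rot) = Fm μ t l := by
  induction t generalizing l with
  | zero =>
    change vdm ((l.map rot).map μ) = vdm (l.map μ)
    rw [← vdm_add 1 (l.map μ), List.map_map, List.map_map]
    congr 1
    apply List.map_congr_left
    intro x hx
    exact hμ x (facet_subset _ _ (hk x hx))
  | succ t ih =>
    have h1 : Fm μ (t + 1) = sd bary (n + 1) (Fm μ t) := rfl
    rw [h1, sd_map bary_map_rot]
    exact sd_congr (facet_convex _ k) hl hk (fun m hm hmS => ih m hm hmS)

lemma exists_not_mem_list {m : List (ZMod (n + 2))} (hm : m.length = n) :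
    ∃ k : ZMod (n + 2), k ∉ m := by
  by_contra hcon
  push Not at hcon
  have h1 : (Finset.univ : Finset (ZMod (n + 2))) ⊆ m.toFinset := by
    intro k _
    exact List.mem_toFinset.mpr (hcon k)
  have h2 := Finset.card_le_card h1
  have h3 := List.toFinset_card_le m
  rw [Finset.card_univ, ZMod.card] at h2
  omega

/-- The standard facet, as a list of vertices. -/
def stdLabels (n : ℕ) : List (ZMod (n + 2)) :=
  List.ofFn (fun i : Fin (n + 1) => (((i : ℕ) + 1 : ℕ) : ZMod (n + 2)))

lemma stdLabels_length (n : ℕ) : (stdLabels n).length = n + 1 := by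
  simp [stdLabels]

lemma stdLabels_nodup (n : ℕ) : (stdLabels n).Nodup := by
  unfold stdLabels
  rw [List.nodup_ofFn]
  intro i j hij
  simp only at hij
  have hi := i.isLt
  have hj := j.isLt
  have h1 := congrArg ZMod.val hij
  rw [ZMod.val_natCast_of_lt (by omega), ZMod.val_natCast_of_lt (by omega)] at h1
  exact Fin.ext (by omega)

lemma stdLabels_ne_zero (n : ℕ) {x : ZMod (n + 2)} (hx : x ∈ stdLabels n) : (0 : ZMod (n + 2)) ≠ x := by
  unfold stdLabels at hx
  rw [List.mem_ofFn] at hx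
  obtain ⟨i, rfl⟩ := hx
  intro h
  have hi := i.isLt
  have h1 := congrArg ZMod.val h
  rw [ZMod.val_natCast_of_lt (by omega), ZMod.val_zero] at h1
  omega

lemma Fm_std [Fact (n + 2).Prime] (hn : Odd n)
    (hμ : ∀ p ∈ bdSimplex (n + 2), μ (rot p) = μ p + 1) (t : ℕ) :
    Fm μ t ((stdLabels n).map (vtx (n + 2))) ≠ 0 := by
  have hstep : ∀ t, Fm μ (t + 1) ((stdLabels n).map (vtx (n + 2)))
      = Fm μ t ((stdLabels n).map (vtx (n + 2))) := by
    intro t
    have h1 := sd_homotopy bary n (Fm μ t) ((stdLabels n).map (vtx (n + 2)))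
      (by simp [stdLabels_length])
    have h2 : hD bary (n + 1) (bd (Fm μ t)) ((stdLabels n).map (vtx (n + 2))) = 0 := by
      rw [hD_congr (convex_univ) (G := fun _ => 0) (by simp [stdLabels_length])
        (fun _ _ => trivial) (fun m hm _ => Fm_closed μ t m hm)]
      exact hD_of_zero _ _ _
    have h3 : bd (hD bary n (Fm μ t)) ((stdLabels n).map (vtx (n + 2))) = 0 := by
      rw [bd_map]
      apply pairing hn
      · intro h2
        have h4 : ((2 : ℕ) : ZMod (n + 2)) = 0 := by exact_mod_cast h2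
        rw [ZMod.natCast_eq_zero_iff] at h4
        have := Nat.le_of_dvd (by norm_num) h4
        have hn0 : n = 0 := by omega
        subst hn0
        exact absurd hn (by decide)
      · intro l₁ a c l₂
        simp only [List.map_append, List.map_cons]
        exact (Fm_alt μ t).hD bary_swap n _ _ _ _
      · intro m hm
        obtain ⟨k, hk⟩ := exists_not_mem_list hm
        have h5 : (m.map (fun x => x + 1)).map (vtx (n + 2)) = (m.map (vtx (n + 2))).map rot := by
          rw [List.map_map, List.map_map]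
          apply List.map_congr_left
          intro x _
          exact (rot_vtx _ x).symm
        rw [h5, hD_map bary_map_rot]
        apply hD_congr (facet_convex (n + 2) k) (by simpa using hm)
        · intro x hx
          rw [List.mem_map] at hx
          obtain ⟨y, hy, rfl⟩ := hx
          apply vtx_facet
          rintro rfl
          exact hk hy
        · intro m' hm' hmS
          exact Fm_rot hμ t k m' hm' hmS
    have h4 : Fm μ (t + 1) = sd bary (n + 1) (Fm μ t) := rfl
    rw [h4]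
    rw [h2, h3] at h1
    linear_combination -h1
  have h0 : ∀ t, Fm μ t ((stdLabels n).map (vtx (n + 2)))
      = Fm μ 0 ((stdLabels n).map (vtx (n + 2))) := by
    intro t
    induction t with
    | zero => rfl
    | succ t ih => rw [hstep, ih]
  rw [h0]
  change vdm (((stdLabels n).map (vtx (n + 2))).map μ) ≠ 0
  have hlab : ∀ c : ℕ, μ (vtx (n + 2) (c : ZMod (n + 2))) = (c : ZMod (n + 2)) + μ (vtx (n + 2) 0) := by
    intro c
    induction c with
    | zero => simp
    | succ c ih =>
      have h5 : vtx (n + 2) ((c + 1 : ℕ) : ZMod (n + 2)) = rot (vtx (n + 2) (c : ZMod (n + 2))) := by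
        rw [rot_vtx]; push_cast; rfl
      have h6 : vtx (n + 2) (c : ZMod (n + 2)) ∈ bdSimplex (n + 2) := by
        apply facet_subset (n + 2) ((c : ZMod (n + 2)) + 1)
        apply vtx_facet
        intro h
        have h7 : (1 : ZMod (n + 2)) = 0 := by linear_combination h
        exact one_ne_zero h7
      rw [h5, hμ _ h6, ih]
      push_cast; ring
  have h7 : ((stdLabels n).map (vtx (n + 2))).map μ
      = (stdLabels n).map (fun x => x + μ (vtx (n + 2) 0)) := by
    rw [List.map_map]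
    apply List.map_congr_left
    intro x hx
    unfold stdLabels at hx
    rw [List.mem_ofFn] at hx
    obtain ⟨i, rfl⟩ := hx
    exact hlab _
  rw [h7, vdm_add]
  exact vdm_ne_zero_of_nodup (stdLabels_nodup n)

theorem exists_rainbow_aux [Fact (n + 2).Prime] (hn : Odd n)
    (hμ : ∀ p ∈ bdSimplex (n + 2), μ (rot p) = μ p + 1) {ρ : ℝ} (hρ : 0 < ρ) :
    ∃ m : List (ZMod (n + 2) → ℝ), m.length = n + 1 ∧ (∀ x ∈ m, x ∈ bdSimplex (n + 2)) ∧
      (∀ x ∈ m, ∀ y ∈ m, dist x y ≤ ρ) ∧ (m.map μ).Nodup := by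
  have hk : (0 : ℝ) ≤ 1 - 1 / ((n + 1 : ℕ) : ℝ) := by
    have : (1 : ℝ) / ((n + 1 : ℕ) : ℝ) ≤ 1 := by
      rw [div_le_one (by positivity)]
      push_cast
      linarith [(Nat.cast_nonneg n : (0 : ℝ) ≤ n)]
    linarith
  have hk1 : 1 - 1 / ((n + 1 : ℕ) : ℝ) < 1 := by
    have : (0 : ℝ) < 1 / ((n + 1 : ℕ) : ℝ) := by positivity
    linarith
  obtain ⟨t, ht⟩ := exists_pow_lt_of_lt_one hρ hk1
  by_contra hcon
  push Not at hcon
  apply Fm_std hn hμ t
  have hfac : ∀ x ∈ (stdLabels n).map (vtx (n + 2)), x ∈ facet (n + 2) 0 := by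
    intro x hx
    rw [List.mem_map] at hx
    obtain ⟨y, hy, rfl⟩ := hx
    exact vtx_facet _ (stdLabels_ne_zero n hy)
  apply sdIter_support (facet_convex (n + 2) 0) t (δ := 1) (by simp [stdLabels_length]) hfac
    zero_le_one
  · intro x hx y hy
    have h1 := hfac x hx
    have h2 := hfac y hy
    have h3 : ∀ p ∈ facet (n + 2) 0, ∀ k, p k ≤ 1 := by
      intro p hp k
      rw [← hp.2.1]
      exact Finset.single_le_sum (fun j _ => hp.1 j) (Finset.mem_univ k)
    rw [dist_pi_le_iff zero_le_one]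
    intro k
    rw [Real.dist_eq, abs_le]
    constructor
    · linarith [h1.1 k, h3 y h2 k]
    · linarith [h2.1 k, h3 x h1 k]
  · omega
  · intro m hm hmS hmd
    by_contra hne
    apply hcon m hm (fun x hx => facet_subset _ _ (hmS x hx)) _ (nodup_of_vdm_ne_zero hne)
    intro x hx y hy
    refine (hmd x hx y hy).trans ?_
    rw [mul_one]
    exact ht.le

end Main

theorem exists_rainbow (q : ℕ) [Fact q.Prime] (hq : q ≠ 2) {μ : (ZMod q → ℝ) → ZMod q}
    (hμ : ∀ p ∈ bdSimplex q, μ (rot p) = μ p + 1) {ρ : ℝ} (hρ : 0 < ρ) :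
    ∃ m : List (ZMod q → ℝ), m.length = q - 1 ∧ (∀ x ∈ m, x ∈ bdSimplex q) ∧
      (∀ x ∈ m, ∀ y ∈ m, dist x y ≤ ρ) ∧ (m.map μ).Nodup := by
  have hp : q.Prime := Fact.out
  obtain ⟨n, rfl⟩ : ∃ n, q = n + 2 := ⟨q - 2, by have := hp.two_le; omega⟩
  have hodd : Odd (n + 2) := hp.odd_of_ne_two hq
  have hn : Odd n := by
    rcases hodd with ⟨k, hk⟩
    exact ⟨k - 1, by omega⟩
  exact exists_rainbow_aux hn hμ hρ

end Pool.Agent.MP_17e467_an
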