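import Pool.Agent.MP_17e467_an.StepOne
import Pool.Agent.MP_17e467_an.Key

/-!
The space, and the proof that its transformation groupoid does not have finite dynamical
complexity.
-/

namespace Pool.Agent.MP_17e467_an

open Set Multiplicative

/-- The window lengths. -/
def ww (i : ℕ) : ℕ := 2 ^ (i + 5)

/-- The condition for the step `i + 1`. -/
def Cond (i : ℕ) (x : ℤ → ℝ) : Prop :=
  ∀ n : ℤ, (∃ k : ℕ, k < ww i ∧ 2 / 3 ≤ x (n + k * (i + 1))) ∧
    (∃ k : ℕ, k < ww i ∧ x (n + k * (i + 1)) ≤ 1 / 3)

/-- The approximation of the space by finitely many conditions. -/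
def XM (m : ℕ) : Set (ℤ → ℝ) := {x | (∀ n, x n ∈ Icc (0 : ℝ) 1) ∧ ∀ i : ℕ, i < m → Cond i x}

/-- The underlying set of the space. -/
def XSet : Set (ℤ → ℝ) := {x | (∀ n, x n ∈ Icc (0 : ℝ) 1) ∧ ∀ i : ℕ, Cond i x}

lemma cond_closed (i : ℕ) : IsClosed {x : ℤ → ℝ | Cond i x} := by
  have h : {x : ℤ → ℝ | Cond i x} = ⋂ n : ℤ,
      ((⋃ k ∈ Iio (ww i), {x : ℤ → ℝ | 2 / 3 ≤ x (n + (k : ℕ) * (i + 1))}) ∩
        (⋃ k ∈ Iio (ww i), {x : ℤ → ℝ | x (n + (k : ℕ) * (i + 1)) ≤ 1 / 3})) := by
    ext x
    simp only [Cond, mem_ofPred_eq, mem_iInter, mem_inter_iff, mem_iUnion, mem_Iio, exists_prop]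
  rw [h]
  apply isClosed_iInter
  intro n
  apply IsClosed.inter
  · apply (finite_Iio _).isClosed_biUnion
    intro k _
    exact isClosed_le continuous_const (continuous_apply _)
  · apply (finite_Iio _).isClosed_biUnion
    intro k _
    exact isClosed_le (continuous_apply _) continuous_const

lemma XM_eq (m : ℕ) : XM m = (Set.univ.pi fun _ : ℤ => Icc (0 : ℝ) 1) ∩
    ⋂ i ∈ Iio m, {x : ℤ → ℝ | Cond i x} := by
  ext x
  simp only [XM, mem_ofPred_eq, mem_inter_iff, mem_univ_pi, mem_iInter, mem_Iio]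

lemma XM_compact (m : ℕ) : IsCompact (XM m) := by
  rw [XM_eq]
  apply (isCompact_univ_pi (fun _ => isCompact_Icc)).inter_right
  apply isClosed_biInter
  intro i _
  exact cond_closed i

lemma XSet_eq : XSet = ⋂ m, XM m := by
  ext x
  simp only [XSet, XM, mem_ofPred_eq, mem_iInter]
  constructor
  · rintro ⟨h1, h2⟩ m
    exact ⟨h1, fun i _ => h2 i⟩
  · intro h
    exact ⟨(h 0).1, fun i => (h (i + 1)).2 i (Nat.lt_succ_self i)⟩

lemma XSet_compact : IsCompact XSet := by
  rw [XSet_eq]
  apply (XM_compact 0).of_isClosed_subset (isClosed_iInter (fun m => (XM_compact m).isClosed))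
  exact iInter_subset _ _

/-- The shift by `n` on all sequences. -/
def sh (n : ℤ) (x : ℤ → ℝ) : ℤ → ℝ := fun k => x (k + n)

lemma sh_continuous (n : ℤ) : Continuous (sh n) := continuous_pi (fun _ => continuous_apply _)

lemma cond_sh {i : ℕ} {x : ℤ → ℝ} (h : Cond i x) (n : ℤ) : Cond i (sh n x) := by
  intro k
  obtain ⟨⟨k1, h1, h2⟩, ⟨k2, h3, h4⟩⟩ := h (k + n)
  refine ⟨⟨k1, h1, ?_⟩, ⟨k2, h3, ?_⟩⟩
  · have e : k + ↑k1 * (↑i + 1) + n = k + n + ↑k1 * (↑i + 1) := by ring
    simp only [sh, e]
    exact h2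
  · have e : k + ↑k2 * (↑i + 1) + n = k + n + ↑k2 * (↑i + 1) := by ring
    simp only [sh, e]
    exact h4

lemma sh_mem {x : ℤ → ℝ} (h : x ∈ XSet) (n : ℤ) : sh n x ∈ XSet :=
  ⟨fun _ => h.1 _, fun i => cond_sh (h.2 i) n⟩

/-- The space. -/
abbrev XX : Type := XSet

instance : CompactSpace XX := isCompact_iff_compactSpace.mp XSet_compact

instance : MulAction MZ XX where
  smul g x := ⟨sh g.toAdd x.1, sh_mem x.2 _⟩
  one_smul x := by
    apply Subtype.ext
    funext k
    change x.1 (k + 0) = x.1 k
    rw [add_zero]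
  mul_smul g h x := by
    apply Subtype.ext
    funext k
    change x.1 (k + (g.toAdd + h.toAdd)) = x.1 (k + g.toAdd + h.toAdd)
    rw [add_assoc]

lemma smul_val (g : MZ) (x : XX) : (g • x).1 = sh g.toAdd x.1 := rfl

instance : ContinuousConstSMul MZ XX where
  continuous_const_smul g := by
    apply Continuous.subtype_mk
    exact (sh_continuous _).comp continuous_subtype_val

lemma it_val (n : ℤ) (x : XX) : (it n x).1 = sh n x.1 := rfl

lemma free_XX : FreeAction MZ XX := by
  intro g x hx
  by_contra hne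
  -- a positive period
  obtain ⟨i, hi⟩ : ∃ i : ℕ, ∀ k : ℤ, x.1 (k + (i + 1)) = x.1 k := by
    have h1 : ∀ k : ℤ, x.1 (k + g.toAdd) = x.1 k := by
      intro k
      have := congrFun (congrArg Subtype.val hx) k
      exact this
    have h0 : g.toAdd ≠ 0 := fun h => hne (by rw [← ofAdd_toAdd g, h, ofAdd_zero])
    rcases lt_or_gt_of_ne h0 with h | h
    · refine ⟨(-g.toAdd - 1).toNat, fun k => ?_⟩
      have e : (((-g.toAdd - 1).toNat : ℕ) : ℤ) + 1 = -g.toAdd := by omega
      rw [e]
      have := h1 (k + -g.toAdd)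
      rw [neg_add_cancel_right] at this
      exact this.symm
    · refine ⟨(g.toAdd - 1).toNat, fun k => ?_⟩
      have e : (((g.toAdd - 1).toNat : ℕ) : ℤ) + 1 = g.toAdd := by omega
      rw [e]
      exact h1 k
  have hper : ∀ k : ℕ, x.1 (0 + k * (i + 1)) = x.1 0 := by
    intro k
    induction k with
    | zero => simp
    | succ k ih =>
      have e : (0 : ℤ) + ((k + 1 : ℕ) : ℤ) * (i + 1) = (0 + k * (i + 1)) + (i + 1) := by
        push_cast; ring
      rw [e, hi, ih]
  obtain ⟨⟨k1, -, h1⟩, ⟨k2, -, h2⟩⟩ := x.2.2 i 0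
  rw [hper] at h1 h2
  linarith

/-- The sequence attached to a point of the simplex. -/
noncomputable def zz {q : ℕ} (p : ZMod q → ℝ) (k : ZMod q) : ℝ := min 1 (q * p k)

/-- Its periodic extension. -/
noncomputable def zt {q : ℕ} (p : ZMod q → ℝ) : ℤ → ℝ := fun n => zz p (n : ZMod q)

lemma zz_continuous {q : ℕ} (k : ZMod q) : Continuous (fun p : ZMod q → ℝ => zz p k) := by
  unfold zz
  exact continuous_const.min (continuous_const.mul (continuous_apply k))

lemma zt_continuous {q : ℕ} : Continuous (zt (q := q)) :=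
  continuous_pi (fun _ => zz_continuous _)

lemma zz_shift {q : ℕ} (k : ZMod q) (p : ZMod q → ℝ) (j : ZMod q) :
    zz (shift k p) j = zz p (j + k) := rfl

lemma zt_shift {q : ℕ} (n : ℤ) (p : ZMod q → ℝ) : zt (shift (n : ZMod q) p) = sh n (zt p) := by
  funext k
  simp only [zt, sh, zz_shift]
  push_cast
  rfl

lemma zz_mem {q : ℕ} [NeZero q] {p : ZMod q → ℝ} (hp : p ∈ bdSimplex q) (k : ZMod q) :
    zz p k ∈ Icc (0 : ℝ) 1 := by
  refine ⟨le_min zero_le_one (mul_nonneg (Nat.cast_nonneg q) (hp.1 k)), min_le_left _ _⟩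

lemma exists_zz_one {q : ℕ} [NeZero q] {p : ZMod q → ℝ} (hp : p ∈ bdSimplex q) :
    ∃ k, zz p k = 1 := by
  by_contra hcon
  push Not at hcon
  have hq : (0 : ℝ) < q := by exact_mod_cast Nat.pos_of_ne_zero (NeZero.ne q)
  have h1 : ∀ k, p k < 1 / q := by
    intro k
    rw [lt_div_iff₀ hq]
    by_contra h
    push Not at h
    apply hcon k
    unfold zz
    exact min_eq_left (by linarith)
  have h2 : ∑ k : ZMod q, p k < ∑ _k : ZMod q, (1 / q : ℝ) :=
    Finset.sum_lt_sum_of_nonempty Finset.univ_nonempty (fun k _ => h1 k)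
  rw [hp.2.1, Finset.sum_const, Finset.card_univ, ZMod.card, nsmul_eq_mul,
    mul_one_div_cancel hq.ne'] at h2
  exact lt_irrefl _ h2

lemma exists_zz_zero {q : ℕ} [NeZero q] {p : ZMod q → ℝ} (hp : p ∈ bdSimplex q) :
    ∃ k, zz p k = 0 := by
  obtain ⟨k, hk⟩ := hp.2.2
  refine ⟨k, ?_⟩
  unfold zz
  rw [hk, mul_zero]
  exact min_eq_right zero_le_one

/-- The index type of the test functions. -/
abbrev JJ (r m : ℕ) : Type := Fin r ⊕ (Fin m × Bool)

lemma sum_ww_le (m : ℕ) : ∑ i : Fin m, (1 / (ww i : ℝ)) ≤ 1 / 16 := by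
  have h : ∀ m : ℕ, ∑ i : Fin m, (1 / (ww i : ℝ)) = 1 / 16 - 1 / (16 * 2 ^ m) := by
    intro m
    induction m with
    | zero => simp
    | succ m ih =>
      rw [Fin.sum_univ_castSucc]
      simp only [Fin.val_castSucc, Fin.val_last]
      rw [ih]
      unfold ww
      push_cast
      rw [pow_add, pow_succ]
      field_simp
      ring
  rw [h]
  have : (0 : ℝ) < 1 / (16 * 2 ^ m) := by positivity
  linarith

theorem not_fdc : ¬ HasFiniteDynamicalComplexity MZ XX := by
  intro hfdc
  classical
  obtain ⟨L, l, hl, hcost, hmark⟩ :=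
    marked_of_hasFiniteDynamicalComplexity hfdc (ε := 1 / 16) (by norm_num)
  -- Tietze extension
  have htietze : ∀ f : C(XX, ℝ), ∃ g : C(ℤ → ℝ, ℝ), ∀ x : XX, g x.1 = f x := by
    intro f
    obtain ⟨g, hg⟩ := ContinuousMap.exists_restrict_eq XSet_compact.isClosed f
    exact ⟨g, fun x => by rw [← hg]; rfl⟩
  choose ext hext using htietze
  set F : Fin l.length → C(ℤ → ℝ, ℝ) := fun j => ext (l.get j).1 with hF
  set NN : Fin l.length → ℕ := fun j => (l.get j).2 with hNN
  -- the open set
  set O : Set (ℤ → ℝ) := {x | ∃ j : Fin l.length, 2 / 3 < F j x ∧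
    ∃ a ∈ Icc (-(L : ℤ)) (L + 1 - NN j), ∀ n ∈ Ico a (a + NN j), F j (sh n x) < 1 / 3} with hO
  have hOopen : IsOpen O := by
    have hOeq : O = ⋃ j : Fin l.length, ({x | 2 / 3 < F j x} ∩
        ⋃ a ∈ Icc (-(L : ℤ)) (L + 1 - NN j), ⋂ n ∈ Ico a (a + NN j),
          {x | F j (sh n x) < 1 / 3}) := by
      ext x
      simp [hO]
    rw [hOeq]
    apply isOpen_iUnion
    intro j
    apply IsOpen.inter
    · exact isOpen_lt continuous_const (F j).continuous
    · apply isOpen_biUnion
      intro a _
      apply (finite_Ico _ _).isOpen_biInter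
      intro n _
      exact isOpen_lt ((F j).continuous.comp (sh_continuous n)) continuous_const
  have hXO : XSet ⊆ O := by
    intro x hx
    obtain ⟨p, hp, h1, a, h2, h3, h4⟩ := hmark ⟨x, hx⟩
    obtain ⟨j, hj, hjp⟩ := List.mem_iff_getElem.mp hp
    refine ⟨⟨j, hj⟩, ?_, a, ?_, ?_⟩
    · simp only [hF, List.get_eq_getElem, hjp]
      rw [hext p.1 ⟨x, hx⟩, h1]
      norm_num
    · simp only [hNN, List.get_eq_getElem, hjp, mem_Icc]
      exact ⟨h2, by omega⟩
    · intro n hn
      simp only [hNN, List.get_eq_getElem, hjp, mem_Ico] at hn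
      simp only [hF, List.get_eq_getElem, hjp]
      have h5 := hext p.1 (it n ⟨x, hx⟩)
      rw [it_val] at h5
      rw [h5]
      have h6 : p.1 (it n ⟨x, hx⟩) = 0 := h4 n hn.1 hn.2
      rw [h6]
      norm_num
  obtain ⟨m, hm⟩ : ∃ m, XM m ⊆ O := by
    apply exists_subset_nhds_of_isCompact' (V := XM)
    · intro a b
      refine ⟨max a b, ?_, ?_⟩
      · intro x hx
        exact ⟨hx.1, fun i hi => hx.2 i (lt_of_lt_of_le hi (le_max_left _ _))⟩
      · intro x hx
        exact ⟨hx.1, fun i hi => hx.2 i (lt_of_lt_of_le hi (le_max_right _ _))⟩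
    · exact XM_compact
    · exact fun i => (XM_compact i).isClosed
    · intro x hx
      rw [← XSet_eq] at hx
      exact hOopen.mem_nhds (hXO hx)
  -- the prime
  obtain ⟨W, hW⟩ : ∃ W : ℕ, W = 2 ^ (m + 5) := ⟨_, rfl⟩
  obtain ⟨q, hqB, hqp⟩ := Nat.exists_infinite_primes
    (4 * l.length + 8 * m + 8 + ∑ j, NN j + W)
  have : Fact q.Prime := ⟨hqp⟩
  have hq2 : q ≠ 2 := by omega
  have hqR : (0 : ℝ) < q := by exact_mod_cast hqp.pos
  have hNNpos : ∀ j, 1 ≤ NN j := fun j => hl _ (List.get_mem l j)
  have hNNq : ∀ j, NN j ≤ q := by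
    intro j
    have : NN j ≤ ∑ j, NN j := Finset.single_le_sum (fun _ _ => Nat.zero_le _) (Finset.mem_univ j)
    omega
  have hwq : ∀ i : ℕ, i < m → ww i ≤ q := by
    intro i hi
    have : ww i ≤ W := by
      rw [hW]
      exact Nat.pow_le_pow_right (by norm_num) (by omega)
    omega
  -- the test functions
  set g : JJ l.length m → (ZMod q → ℝ) → ℝ := fun j p =>
    match j with
    | Sum.inl j => max (F j (zt p) - 1 / 3) 0
    | Sum.inr (_, true) => max (zz p 0 - 2 / 3) 0
    | Sum.inr (_, false) => max (1 / 3 - zz p 0) 0 with hg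
  set st : JJ l.length m → ZMod q := fun j =>
    match j with
    | Sum.inl _ => 1
    | Sum.inr (i, _) => (((i : ℕ) + 1 : ℕ) : ZMod q) with hst
  set N : JJ l.length m → ℕ := fun j =>
    match j with
    | Sum.inl j => NN j
    | Sum.inr (i, _) => ww i with hN
  have hcard : 2 * ∑ j, (q / N j + 1) + 2 ≤ q := by
    rw [Fintype.sum_sum_type, Fintype.sum_prod_type]
    simp only [hN, Fintype.univ_bool, Finset.sum_const, Finset.card_insert_of_notMem,
      Finset.mem_singleton, Bool.true_eq_false, not_false_eq_true, Finset.card_singleton,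
      smul_eq_mul]
    have h1 : ∑ j : Fin l.length, (1 / (NN j : ℝ)) ≤ 1 / 16 := by
      have h2 : cost l = ∑ j : Fin l.length, (1 / (NN j : ℝ)) := by
        unfold cost
        have h3 : l.map (fun p => 1 / (p.2 : ℝ)) = List.ofFn (fun j => 1 / (NN j : ℝ)) := by
          apply List.ext_getElem
          · simp
          · intro i h1 h2
            simp [hNN]
        rw [h3, List.sum_ofFn]
      rw [← h2]; exact hcost
    have h2 := sum_ww_le m
    have hdiv : ∀ a : ℕ, ((q / a + 1 : ℕ) : ℝ) ≤ q * (1 / (a : ℝ)) + 1 := by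
      intro a
      push_cast
      have : ((q / a : ℕ) : ℝ) ≤ (q : ℝ) / a := Nat.cast_div_le
      rw [mul_one_div]
      linarith
    have h3 : ((∑ j : Fin l.length, (q / NN j + 1) : ℕ) : ℝ) ≤ q * (1 / 16) + l.length := by
      push_cast
      calc ∑ j : Fin l.length, (((q / NN j : ℕ) : ℝ) + 1)
          ≤ ∑ j : Fin l.length, (q * (1 / (NN j : ℝ)) + 1) := by
            apply Finset.sum_le_sum
            intro j _
            have := hdiv (NN j)
            push_cast at this
            exact this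
        _ = q * ∑ j : Fin l.length, (1 / (NN j : ℝ)) + l.length := by
            rw [Finset.sum_add_distrib, ← Finset.mul_sum]
            simp
        _ ≤ q * (1 / 16) + l.length := by
            have := mul_le_mul_of_nonneg_left h1 hqR.le
            linarith
    have h4 : ((∑ i : Fin m, (q / ww i + 1) : ℕ) : ℝ) ≤ q * (1 / 16) + m := by
      push_cast
      calc ∑ j : Fin m, (((q / ww j : ℕ) : ℝ) + 1)
          ≤ ∑ j : Fin m, (q * (1 / (ww j : ℝ)) + 1) := by
            apply Finset.sum_le_sum
            intro j _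
            have := hdiv (ww j)
            push_cast at this
            exact this
        _ = q * ∑ j : Fin m, (1 / (ww j : ℝ)) + m := by
            rw [Finset.sum_add_distrib, ← Finset.mul_sum]
            simp
        _ ≤ q * (1 / 16) + m := by
            have := mul_le_mul_of_nonneg_left h2 hqR.le
            linarith
    have h5 : (4 * (l.length : ℝ) + 8 * m + 8) ≤ q := by
      have : 4 * l.length + 8 * m + 8 ≤ q := by omega
      exact_mod_cast this
    have h6 : ∀ i : Fin m, (1 + 1) * (q / ww i + 1) = 2 * (q / ww i + 1) := by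
      intro i; ring
    rw [Finset.sum_congr rfl (fun i _ => h6 i), ← Finset.mul_sum]
    have h7 : ((2 * (∑ j : Fin l.length, (q / NN j + 1) + 2 * ∑ i : Fin m, (q / ww i + 1)) + 2 : ℕ) : ℝ)
        ≤ q := by
      push_cast at h3 h4 ⊢
      linarith
    exact_mod_cast h7
  obtain ⟨p, hp, hkey⟩ := key q hq2 g
    (by
      intro j
      apply Continuous.continuousOn
      rcases j with j | ⟨i, b⟩
      · exact (((F j).continuous.comp zt_continuous).sub continuous_const).max continuous_const
      · cases b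
        · exact (continuous_const.sub (zz_continuous 0)).max continuous_const
        · exact ((zz_continuous 0).sub continuous_const).max continuous_const)
    (by
      intro j p
      rcases j with j | ⟨i, b⟩
      · exact le_max_right _ _
      · cases b
        · exact le_max_right _ _
        · exact le_max_right _ _)
    st
    (by
      intro j
      rcases j with j | ⟨i, b⟩
      · exact one_ne_zero
      · simp only [hst]
        rw [Ne, ZMod.natCast_eq_zero_iff]
        intro hdvd
        have h1 := Nat.le_of_dvd (Nat.succ_pos _) hdvd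
        have h2 := i.isLt
        omega)
    N
    (by
      intro j
      rcases j with j | ⟨i, b⟩
      · exact hNNpos j
      · exact Nat.one_le_two_pow)
    (by
      intro j
      rcases j with j | ⟨i, b⟩
      · exact hNNq j
      · exact hwq i i.isLt)
    hcard
  by_cases hz : zt p ∈ XM m
  · obtain ⟨j, h1, a, ha, h2⟩ := hm hz
    have h3 := hkey (Sum.inl j) (a : ZMod q)
      (by
        intro t ht
        simp only [hg, hst]
        have h4 : ((a : ZMod q) + (t : ZMod q) * 1) = ((a + t : ℤ) : ZMod q) := by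
          push_cast; ring
        rw [h4, zt_shift]
        have h5 := h2 (a + t) ⟨by omega, by simp only [hN] at ht; omega⟩
        exact max_eq_right (by linarith))
      ((0 : ℤ) : ZMod q)
    simp only [hg] at h3
    rw [zt_shift] at h3
    have h4 : sh 0 (zt p) = zt p := by
      funext k
      simp [sh]
    rw [h4] at h3
    have h5 := le_max_left (F j (zt p) - 1 / 3) 0
    rw [h3] at h5
    linarith
  · have h1 : ∃ i, ∃ (_ : i < m), ¬ Cond i (zt p) := by
      by_contra hcon
      push Not at hcon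
      exact hz ⟨fun n => zz_mem hp _, fun i hi => hcon i hi⟩
    obtain ⟨i, him, hi⟩ := h1
    unfold Cond at hi
    push Not at hi
    obtain ⟨n, hn⟩ := hi
    by_cases hc : ∃ k : ℕ, k < ww i ∧ 2 / 3 ≤ zt p (n + k * (i + 1))
    · have h2 := hn hc
      have h3 := hkey (Sum.inr (⟨i, him⟩, false)) (n : ZMod q)
        (by
          intro t ht
          simp only [hg, hst]
          have h4 := h2 t ht
          rw [zz_shift, zero_add]
          have h5 : zt p (n + t * (i + 1)) = zz p ((n : ZMod q) + t * ((i + 1 : ℕ) : ZMod q)) := by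
            unfold zt; push_cast; rfl
          rw [h5] at h4
          exact max_eq_right (by linarith))
      obtain ⟨k, hk⟩ := exists_zz_zero hp
      have h4 := h3 k
      simp only [hg] at h4
      rw [zz_shift, zero_add, hk] at h4
      norm_num at h4
    · push Not at hc
      have h3 := hkey (Sum.inr (⟨i, him⟩, true)) (n : ZMod q)
        (by
          intro t ht
          simp only [hg, hst]
          have h4 := hc t ht
          rw [zz_shift, zero_add]
          have h5 : zt p (n + t * (i + 1)) = zz p ((n : ZMod q) + t * ((i + 1 : ℕ) : ZMod q)) := by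
            unfold zt; push_cast; rfl
          rw [h5] at h4
          exact max_eq_right (by linarith))
      obtain ⟨k, hk⟩ := exists_zz_one hp
      have h4 := h3 k
      simp only [hg] at h4
      rw [zz_shift, zero_add, hk] at h4
      norm_num at h4

end Pool.Agent.MP_17e467_an
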