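import Pool.Agent.MP_17e467_an.Defs

/-!
From finite dynamical complexity to finite families of functions with gaps.
-/

namespace Pool.Agent.MP_17e467_an

open Set Multiplicative

/-- The integers, as a multiplicative group. -/
abbrev MZ := Multiplicative ℤ

section Basic

variable {X : Type*} [MulAction MZ X]

/-- The `n`-th iterate. -/
def it (n : ℤ) (x : X) : X := (ofAdd n : MZ) • x

lemma it_zero (x : X) : it 0 x = x := by
  unfold it
  rw [ofAdd_zero, one_smul]

lemma it_add (m n : ℤ) (x : X) : it (m + n) x = it m (it n x) := by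
  unfold it
  rw [ofAdd_add, mul_smul]

lemma it_continuous [TopologicalSpace X] [ContinuousConstSMul MZ X] (n : ℤ) :
    Continuous (it n : X → X) := continuous_const_smul _

/-- Short jumps between points of `V`. -/
def jumps (V : Set X) (N : ℕ) : Set (MZ × X) := {g | |g.1.toAdd| ≤ N ∧ g.2 ∈ V ∧ g.1 • g.2 ∈ V}

lemma mem_jumps {V : Set X} {N : ℕ} {n : ℤ} {x : X} :
    ((ofAdd n : MZ), x) ∈ jumps V N ↔ |n| ≤ N ∧ x ∈ V ∧ it n x ∈ V := Iff.rfl

/-- `N` consecutive iterates, with times in `[-L, L]`, lie in `S`. -/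
def Win (S : Set X) (N L : ℕ) (x : X) : Prop :=
  ∃ a : ℤ, -(L : ℤ) ≤ a ∧ a + N ≤ L + 1 ∧ ∀ n : ℤ, a ≤ n → n < a + N → it n x ∈ S

lemma Win.mono {S S' : Set X} {N L L' : ℕ} {x : X} (h : Win S N L x) (hS : S ⊆ S')
    (hL : L ≤ L') : Win S' N L' x := by
  obtain ⟨a, h1, h2, h3⟩ := h
  exact ⟨a, by omega, by omega, fun n hn1 hn2 => hS (h3 n hn1 hn2)⟩

/-- Walking in `W` by short jumps stays in the subgroupoid. -/
lemma walk {H : Set (MZ × X)} (hH : IsSubgroupoid H) {W : Set X} {N : ℕ}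
    (hA : jumps W N ⊆ H) {y : X} (hy : y ∈ W) (M : ℕ) (hM : it M y ∈ W)
    (hv : ∀ k : ℕ, k < M → ∃ j : ℕ, k + 1 ≤ j ∧ j ≤ k + N ∧ it j y ∈ W) :
    ((ofAdd (M : ℤ) : MZ), y) ∈ H := by
  have key : ∀ m : ℕ, m ≤ M → ((ofAdd (M : ℤ) : MZ), y) ∈ H ∨
      ∃ n : ℕ, m ≤ n ∧ n ≤ M ∧ ((ofAdd (n : ℤ) : MZ), y) ∈ H ∧ it n y ∈ W := by
    intro m
    induction m with
    | zero =>
      intro _
      right
      refine ⟨0, le_rfl, Nat.zero_le _, ?_, ?_⟩
      · apply hA
        rw [mem_jumps]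
        refine ⟨by simp, hy, ?_⟩
        simpa [it_zero] using hy
      · simpa [it_zero] using hy
    | succ m ih =>
      intro hm
      rcases ih (by omega) with h | ⟨n, h1, h2, h3, h4⟩
      · exact Or.inl h
      · rcases Nat.lt_or_ge m n with hlt | hge
        · exact Or.inr ⟨n, hlt, h2, h3, h4⟩
        · have hn : n = m := by omega
          subst hn
          obtain ⟨j, j1, j2, j3⟩ := hv n (by omega)
          rcases Nat.lt_or_ge M j with hj | hj
          · left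
            have h5 : (((ofAdd ((M : ℤ) - n) : MZ)), it n y) ∈ H := by
              apply hA
              rw [mem_jumps]
              refine ⟨?_, h4, ?_⟩
              · rw [abs_le]; constructor <;> omega
              · rw [← it_add]
                simpa using hM
            have h6 := hH.mul_mem _ _ _ h3 h5
            rwa [← ofAdd_add, sub_add_cancel] at h6
          · right
            refine ⟨j, by omega, hj, ?_, j3⟩
            have h5 : (((ofAdd ((j : ℤ) - n) : MZ)), it n y) ∈ H := by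
              apply hA
              rw [mem_jumps]
              refine ⟨?_, h4, ?_⟩
              · rw [abs_le]; constructor <;> omega
              · rw [← it_add]
                simpa using j3
            have h6 := hH.mul_mem _ _ _ h3 h5
            rwa [← ofAdd_add, sub_add_cancel] at h6
  rcases key M le_rfl with h | ⟨n, h1, h2, h3, _⟩
  · exact h
  · have : n = M := by omega
    rwa [this] at h3

end Basic

section Topology

variable {X : Type*} [TopologicalSpace X] [MulAction MZ X] [ContinuousConstSMul MZ X]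

omit [TopologicalSpace X] [ContinuousConstSMul MZ X] in
lemma win_eq (S : Set X) (N L : ℕ) :
    {x | Win S N L x} = ⋃ a ∈ Icc (-(L : ℤ)) (L + 1 - N), ⋂ n ∈ Ico a (a + N), (it n) ⁻¹' S := by
  ext x
  simp only [Win, mem_ofPred_eq, mem_iUnion, mem_iInter, mem_preimage, exists_prop, mem_Icc, mem_Ico]
  constructor
  · rintro ⟨a, h1, h2, h3⟩
    exact ⟨a, ⟨h1, by omega⟩, fun n hn => h3 n hn.1 hn.2⟩
  · rintro ⟨a, ⟨h1, h2⟩, h3⟩
    exact ⟨a, h1, by omega, fun n hn1 hn2 => h3 n ⟨hn1, hn2⟩⟩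

lemma win_open {S : Set X} (hS : IsOpen S) (N L : ℕ) : IsOpen {x | Win S N L x} := by
  rw [win_eq]
  apply isOpen_biUnion
  intro a _
  apply (finite_Ico _ _).isOpen_biInter
  intro n _
  exact hS.preimage (it_continuous n)

lemma win_closed {S : Set X} (hS : IsClosed S) (N L : ℕ) : IsClosed {x | Win S N L x} := by
  rw [win_eq]
  apply (finite_Icc _ _).isClosed_biUnion
  intro a _
  apply isClosed_biInter
  intro n _
  exact hS.preimage (it_continuous n)

/-- The cost of a finite family of functions with window lengths. -/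
noncomputable def cost (l : List (C(X, ℝ) × ℕ)) : ℝ := (l.map (fun p => 1 / (p.2 : ℝ))).sum

/-- The function part of the alternative. -/
def Marked (l : List (C(X, ℝ) × ℕ)) (L : ℕ) (x : X) : Prop :=
  ∃ p ∈ l, p.1 x = 1 ∧ Win {y | p.1 y = 0} p.2 L x

omit [ContinuousConstSMul MZ X] in
lemma Marked.mono {l l' : List (C(X, ℝ) × ℕ)} {L L' : ℕ} {x : X} (h : Marked l L x)
    (hl : l ⊆ l') (hL : L ≤ L') : Marked l' L' x := by
  obtain ⟨p, h1, h2, h3⟩ := h
  exact ⟨p, hl h1, h2, h3.mono Subset.rfl hL⟩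

/-- The gap property of a set of arrows. -/
def GapProp (H : Set (MZ × X)) : Prop :=
  ∀ V : Set X, IsOpen V → ∀ N : ℕ, 1 ≤ N → jumps V N ⊆ H → ∀ C : Set X, IsCompact C → C ⊆ V →
    ∀ ε : ℝ, 0 < ε → ∃ V1 : Set X, IsOpen V1 ∧ C ⊆ V1 ∧ V1 ⊆ V ∧
      ∃ (L : ℕ) (l : List (C(X, ℝ) × ℕ)), (∀ p ∈ l, 1 ≤ p.2) ∧ cost l ≤ ε ∧
        ∀ x ∈ C, Win V1ᶜ N L x ∨ Marked l L x

omit [ContinuousConstSMul MZ X] in
lemma gapProp_of_relatively_compact {H : Set (MZ × X)} (hH : IsSubgroupoid H)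
    (hc : ∃ C, IsCompact C ∧ H ⊆ C) : GapProp H := by
  intro V hV N hN hJ C hC hCV ε hε
  obtain ⟨K, hK, hHK⟩ := hc
  have hfin : (Prod.fst '' K).Finite := by
    have := hK.image (continuous_fst (X := MZ) (Y := X))
    exact this.finite_of_discrete
  obtain ⟨B, hB⟩ : ∃ B : ℕ, ∀ n : ℤ, (ofAdd n : MZ) ∈ Prod.fst '' K → n ≤ B := by
    have hfin2 : ((fun g : MZ => g.toAdd) '' (Prod.fst '' K)).Finite := hfin.image _
    obtain ⟨b, hb⟩ := hfin2.bddAbove
    refine ⟨b.toNat, fun n hn => ?_⟩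
    have h1 : n ≤ b := hb ⟨ofAdd n, hn, rfl⟩
    exact h1.trans (Int.self_le_toNat b)
  refine ⟨V, hV, hCV, Subset.rfl, B + 2 * N + 2, [], by simp, by simp [cost, hε.le], ?_⟩
  intro x hx
  left
  by_contra hcon
  have hvis : ∀ k : ℕ, k ≤ B + N + 1 → ∃ j : ℕ, k + 1 ≤ j ∧ j ≤ k + N ∧ it j x ∈ V := by
    intro k hk
    by_contra hno
    push Not at hno
    apply hcon
    refine ⟨(k : ℤ) + 1, by omega, by push_cast; omega, ?_⟩
    intro n h1 h2
    obtain ⟨j, rfl⟩ : ∃ j : ℕ, n = j := ⟨n.toNat, by omega⟩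
    exact hno j (by omega) (by omega)
  obtain ⟨M, hM1, hM2, hM3⟩ := hvis B (by omega)
  have h1 := walk hH hJ (hCV hx) M hM3 (fun k hk => hvis k (by omega))
  have h2 := hB (M : ℤ) ⟨_, hHK h1, rfl⟩
  omega

variable [CompactSpace X] [T2Space X]

omit [ContinuousConstSMul MZ X] in
lemma piece {Hi : Set (MZ × X)} (hHi : GapProp Hi) {V'' : Set X} (hV'' : IsOpen V'') {N' : ℕ}
    (hN' : 1 ≤ N') (hJ : jumps V'' N' ⊆ Hi) {Ci : Set X} (hCi : IsCompact Ci) (hsub : Ci ⊆ V'')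
    {ε : ℝ} (hε : 0 < ε) (hcost : 1 / (N' : ℝ) ≤ ε / 4) :
    ∃ (L : ℕ) (l : List (C(X, ℝ) × ℕ)), (∀ p ∈ l, 1 ≤ p.2) ∧ cost l ≤ ε / 2 ∧
      ∀ x ∈ Ci, Marked l L x := by
  obtain ⟨V1, hV1, hCV1, -, L, l, hl, hcl, halt⟩ :=
    hHi V'' hV'' N' hN' hJ Ci hCi hsub (ε / 4) (by positivity)
  obtain ⟨f, hf0, hf1, -⟩ := exists_continuous_zero_one_of_isClosed hV1.isClosed_compl
    hCi.isClosed (disjoint_left.mpr (fun x hx hx' => hx (hCV1 hx')))
  refine ⟨L, (f, N') :: l, ?_, ?_, ?_⟩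
  · intro p hp
    rcases List.mem_cons.mp hp with rfl | hp
    · exact hN'
    · exact hl p hp
  · unfold cost at hcl ⊢
    rw [List.map_cons, List.sum_cons]
    simp only
    linarith
  · intro x hx
    rcases halt x hx with h | h
    · refine ⟨(f, N'), List.mem_cons_self, hf1 hx, ?_⟩
      exact h.mono (fun y hy => hf0 hy) le_rfl
    · exact h.mono (List.subset_cons_of_subset _ (List.Subset.refl _)) le_rfl

lemma gapProp_of_decomposable {H : Set (MZ × X)} (hH : IsSubgroupoid H)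
    {𝒞 : Set (Set (MZ × X))} (h𝒞 : ∀ H' ∈ 𝒞, GapProp H') (hdec : DecomposableOver H 𝒞) :
    GapProp H := by
  intro V hV N hN hJ C hC hCV ε hε
  -- choice of N'
  obtain ⟨N', hN'1, hN'2⟩ : ∃ N' : ℕ, N ≤ N' ∧ 1 / (N' : ℝ) ≤ ε / 4 := by
    obtain ⟨m, hm⟩ := exists_nat_gt (4 / ε)
    refine ⟨max N m, le_max_left _ _, ?_⟩
    have h1 : 4 / ε < ((max N m : ℕ) : ℝ) := by
      refine hm.trans_le ?_
      exact_mod_cast le_max_right N m
    have h2 : (0 : ℝ) < ((max N m : ℕ) : ℝ) := lt_trans (by positivity) h1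
    rw [div_lt_iff₀ hε] at h1
    rw [div_le_div_iff₀ h2 (by norm_num)]
    linarith
  have hN'pos : 1 ≤ N' := hN.trans hN'1
  -- nested open sets
  obtain ⟨V2, hV2, hCV2, hclV2⟩ := normal_exists_closure_subset hC.isClosed hV hCV
  obtain ⟨V1, hV1, hCV1, hclV1⟩ := normal_exists_closure_subset hC.isClosed hV2 hCV2
  set D : Set X := {x | Win V2ᶜ N (2 * N') x}ᶜ with hD
  set D' : Set X := {x | Win (closure V2)ᶜ N (2 * N') x}ᶜ with hD'
  set E : Set X := {x | Win (closure V1)ᶜ N (2 * N') x}ᶜ with hE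
  have hDopen : IsOpen D := (win_closed hV2.isClosed_compl _ _).isOpen_compl
  have hD'closed : IsClosed D' := (win_open isClosed_closure.isOpen_compl _ _).isClosed_compl
  have hEclosed : IsClosed E := (win_open isClosed_closure.isOpen_compl _ _).isClosed_compl
  have hDD' : D ⊆ D' := by
    intro x hx hw
    exact hx (hw.mono (compl_subset_compl.mpr subset_closure) le_rfl)
  have hED : E ⊆ D := by
    intro x hx hw
    exact hx (hw.mono (compl_subset_compl.mpr hclV1) le_rfl)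
  -- the set K
  set K : Set (MZ × X) := ⋃ n ∈ Icc (-(N' : ℤ)) N',
    {(ofAdd n : MZ)} ×ˢ (V2 ∩ D ∩ (it n) ⁻¹' V2) with hK
  set Kc : Set (MZ × X) := ⋃ n ∈ Icc (-(N' : ℤ)) N',
    {(ofAdd n : MZ)} ×ˢ (closure V2 ∩ D' ∩ (it n) ⁻¹' (closure V2)) with hKc
  have hKopen : IsOpen K := by
    apply isOpen_biUnion
    intro n _
    exact (isOpen_discrete _).prod ((hV2.inter hDopen).inter (hV2.preimage (it_continuous n)))
  have hKccompact : IsCompact Kc := by
    apply (finite_Icc _ _).isCompact_biUnion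
    intro n _
    apply isCompact_singleton.prod
    exact ((isClosed_closure.inter hD'closed).inter
      (isClosed_closure.preimage (it_continuous n))).isCompact
  have hKKc : K ⊆ Kc := by
    apply iUnion₂_mono
    intro n _
    apply prod_mono_right
    exact inter_subset_inter (inter_subset_inter subset_closure hDD')
      (preimage_mono subset_closure)
  have hJ2 : jumps (closure V2) N ⊆ H := by
    intro g hg
    exact hJ ⟨hg.1, hclV2 hg.2.1, hclV2 hg.2.2⟩
  have hKcH : Kc ⊆ H := by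
    rintro ⟨γ, x⟩ hg
    simp only [hKc, mem_iUnion, mem_prod, mem_singleton_iff, exists_prop, mem_Icc, mem_inter_iff,
      mem_preimage] at hg
    obtain ⟨n, ⟨hn1, hn2⟩, hγ, ⟨hx, hxD⟩, hnx⟩ := hg
    rw [hγ]
    have hvis : ∀ a : ℤ, -(2 * N' : ℤ) ≤ a → a + N ≤ 2 * N' + 1 →
        ∃ n : ℤ, a ≤ n ∧ n < a + N ∧ it n x ∈ closure V2 := by
      intro a ha1 ha2
      by_contra hno
      push Not at hno
      apply hxD
      exact ⟨a, by push_cast; omega, by push_cast; omega, fun n h1 h2 => hno n h1 h2⟩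
    rcases le_total 0 n with h0 | h0
    · obtain ⟨M, rfl⟩ : ∃ M : ℕ, n = M := ⟨n.toNat, by omega⟩
      apply walk hH hJ2 hx M hnx
      intro k hk
      obtain ⟨j, h1, h2, h3⟩ := hvis ((k : ℤ) + 1) (by omega) (by omega)
      obtain ⟨j', rfl⟩ : ∃ j' : ℕ, j = j' := ⟨j.toNat, by omega⟩
      exact ⟨j', by omega, by omega, h3⟩
    · obtain ⟨M, hM⟩ : ∃ M : ℕ, n = -M := ⟨(-n).toNat, by omega⟩
      subst hM
      have h1 : ((ofAdd (M : ℤ) : MZ), it (-(M : ℤ)) x) ∈ H := by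
        apply walk hH hJ2 hnx M
        · rw [← it_add, add_neg_cancel, it_zero]; exact hx
        · intro k hk
          obtain ⟨j, h1, h2, h3⟩ := hvis (-(M : ℤ) + (k : ℤ) + 1) (by omega) (by omega)
          obtain ⟨j', hj'⟩ : ∃ j' : ℕ, j + M = j' := ⟨(j + M).toNat, by omega⟩
          refine ⟨j', by omega, by omega, ?_⟩
          rw [← it_add, ← hj']
          simpa using h3
      have h2 := hH.inv_mem _ _ h1
      rw [← ofAdd_neg] at h2
      have h3 : (ofAdd (M : ℤ) : MZ) • it (-(M : ℤ)) x = x := by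
        change it (M : ℤ) (it (-(M : ℤ)) x) = x
        rw [← it_add, add_neg_cancel, it_zero]
      rwa [h3] at h2
  obtain ⟨U₀, U₁, hU₀, hU₁, hcov, ⟨H₀, hH₀, hg₀⟩, ⟨H₁, hH₁, hg₁⟩⟩ :=
    hdec K hKopen ⟨Kc, hKccompact, hKKc, hKcH⟩
  have hCE : IsCompact (C ∩ E) := hC.inter_right hEclosed
  have hCEU : C ∩ E ⊆ U₀ ∪ U₁ := by
    intro x hx
    rw [hcov]
    change ((1 : MZ), x) ∈ H
    apply hJ
    refine ⟨?_, hCV hx.1, ?_⟩
    · simp
    · simpa using hCV hx.1
  obtain ⟨C₀, C₁, hC₀, hC₁, hC₀U, hC₁U, hCC⟩ := hCE.binary_compact_cover hU₀ hU₁ hCEU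
  have hsubgen : ∀ S : Set (MZ × X), S ⊆ generated S := by
    intro S g hg
    simp only [generated, mem_sInter, mem_ofPred_eq]
    intro T hT
    exact hT.2 hg
  have hjmp : ∀ (U : Set X) (Hi : Set (MZ × X)), generated (restrictTo K U) ⊆ Hi →
      jumps (U ∩ V2 ∩ D) N' ⊆ Hi := by
    rintro U Hi hgi ⟨γ, x⟩ ⟨h1, h2, h3⟩
    apply hgi
    apply hsubgen
    refine ⟨?_, h2.1.1, h3.1.1⟩
    simp only [hK, mem_iUnion, mem_prod, mem_singleton_iff, exists_prop, mem_Icc]
    refine ⟨γ.toAdd, abs_le.mp h1, rfl, ⟨h2.1.2, h2.2⟩, h3.1.2⟩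
  obtain ⟨L₀, l₀, hl₀, hc₀, hm₀⟩ := piece (h𝒞 H₀ hH₀) ((hU₀.inter hV2).inter hDopen) hN'pos
    (hjmp U₀ H₀ hg₀) hC₀ (fun x hx => by
      have hxCE : x ∈ C ∩ E := by rw [hCC]; exact Or.inl hx
      exact ⟨⟨hC₀U hx, hCV2 hxCE.1⟩, hED hxCE.2⟩) hε hN'2
  obtain ⟨L₁, l₁, hl₁, hc₁, hm₁⟩ := piece (h𝒞 H₁ hH₁) ((hU₁.inter hV2).inter hDopen) hN'pos
    (hjmp U₁ H₁ hg₁) hC₁ (fun x hx => by
      have hxCE : x ∈ C ∩ E := by rw [hCC]; exact Or.inr hx
      exact ⟨⟨hC₁U hx, hCV2 hxCE.1⟩, hED hxCE.2⟩) hε hN'2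
  refine ⟨V1, hV1, hCV1, subset_closure.trans (hclV1.trans (subset_closure.trans hclV2)),
    max (2 * N') (max L₀ L₁), l₀ ++ l₁, ?_, ?_, ?_⟩
  · intro p hp
    rcases List.mem_append.mp hp with hp | hp
    · exact hl₀ p hp
    · exact hl₁ p hp
  · unfold cost at hc₀ hc₁ ⊢
    rw [List.map_append, List.sum_append]
    linarith
  · intro x hx
    by_cases hxE : x ∈ E
    · right
      have hxCE : x ∈ C₀ ∪ C₁ := by rw [← hCC]; exact ⟨hx, hxE⟩
      rcases hxCE with h | h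
      · exact (hm₀ x h).mono (List.subset_append_left _ _)
          ((le_max_left _ _).trans (le_max_right _ _))
      · exact (hm₁ x h).mono (List.subset_append_right _ _)
          ((le_max_right _ _).trans (le_max_right _ _))
    · left
      have h1 : Win (closure V1)ᶜ N (2 * N') x := by
        by_contra hc
        exact hxE hc
      exact h1.mono (compl_subset_compl.mpr subset_closure) (le_max_left _ _)

/-- Finite dynamical complexity gives finite families of functions with gaps. -/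
theorem marked_of_hasFiniteDynamicalComplexity (h : HasFiniteDynamicalComplexity MZ X)
    {ε : ℝ} (hε : 0 < ε) :
    ∃ (L : ℕ) (l : List (C(X, ℝ) × ℕ)), (∀ p ∈ l, 1 ≤ p.2) ∧ cost l ≤ ε ∧
      ∀ x : X, Marked l L x := by
  have hclass : IsClosedClass {H : Set (MZ × X) | IsOpen H ∧ IsSubgroupoid H ∧ GapProp H} := by
    refine ⟨fun H hH => ⟨hH.1, hH.2.1⟩, fun H h1 h2 h3 => ?_, fun H h1 h2 h3 => ?_⟩
    · exact ⟨h1, h2, gapProp_of_relatively_compact h2 h3⟩
    · exact ⟨h1, h2, gapProp_of_decomposable h2 (fun H' hH' => hH'.2.2) h3⟩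
  have huniv := h _ hclass
  obtain ⟨V1, -, hV1, -, L, l, hl, hc, halt⟩ :=
    huniv.2.2 univ isOpen_univ 1 le_rfl (subset_univ _) univ isCompact_univ Subset.rfl ε hε
  refine ⟨L, l, hl, hc, fun x => ?_⟩
  rcases halt x (mem_univ x) with h1 | h1
  · obtain ⟨a, -, -, h2⟩ := h1
    exact absurd (hV1 (mem_univ _)) (h2 a le_rfl (by simp))
  · exact h1

end Topology

end Pool.Agent.MP_17e467_an
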