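import Pool.Agent.MP_17e467_an.Cochains

/-!
Barycentres, and where the lists in an (iterated) subdivision live.
-/

namespace Pool.Agent.MP_17e467_an

section Bary

variable {E : Type*} [NormedAddCommGroup E] [NormedSpace ℝ E]

/-- The barycentre of a list of points. -/
noncomputable def bary (l : List E) : E := ((l.length : ℝ)⁻¹) • l.sum

lemma bary_swap (l₁ : List E) (a c : E) (l₂ : List E) :
    bary (l₁ ++ a :: c :: l₂) = bary (l₁ ++ c :: a :: l₂) := by
  unfold bary
  simp only [List.length_append, List.length_cons, List.sum_append, List.sum_cons]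
  congr 2
  abel

lemma bary_map (T : E →ₗ[ℝ] E) (l : List E) : bary (l.map T) = T (bary l) := by
  unfold bary
  rw [List.length_map, map_smul, map_list_sum]

lemma bary_mem {S : Set E} (hS : Convex ℝ S) {l : List E} (hne : l ≠ [])
    (h : ∀ x ∈ l, x ∈ S) : bary l ∈ S := by
  induction l with
  | nil => exact absurd rfl hne
  | cons a l ih =>
    by_cases hl : l = []
    · subst hl
      simpa [bary] using h a (by simp)
    · have h1 := ih hl (fun x hx => h x (List.mem_cons_of_mem _ hx))
      have h2 : (0 : ℝ) < l.length := by
        have := List.length_pos_iff.mpr hl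
        exact_mod_cast this
      have h3 : bary (a :: l)
          = ((l.length : ℝ) + 1)⁻¹ • a + ((l.length : ℝ) * ((l.length : ℝ) + 1)⁻¹) • bary l := by
        unfold bary
        rw [List.sum_cons, List.length_cons, smul_add, smul_smul]
        push_cast
        congr 2
        field_simp
      rw [h3]
      apply hS (h a (by simp)) h1 (by positivity) (by positivity)
      field_simp
      ring

omit [NormedSpace ℝ E] in
lemma list_sum_norm_le {x : E} {δ : ℝ} {l : List E} (hd : ∀ y ∈ l, dist y x ≤ δ) :
    (l.map (fun y => ‖y - x‖)).sum ≤ l.length * δ := by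
  induction l with
  | nil => simp
  | cons a l ih =>
    rw [List.map_cons, List.sum_cons, List.length_cons]
    have h1 := ih (fun y hy => hd y (List.mem_cons_of_mem _ hy))
    have h2 := hd a (by simp)
    rw [dist_eq_norm] at h2
    push_cast
    linarith

omit [NormedSpace ℝ E] in
lemma list_sum_norm_le' {x : E} {δ : ℝ} {l : List E} (hd : ∀ y ∈ l, dist y x ≤ δ)
    (hx : x ∈ l) : (l.map (fun y => ‖y - x‖)).sum ≤ (l.length - 1 : ℝ) * δ := by
  induction l with
  | nil => simp at hx
  | cons a l ih =>
    rw [List.map_cons, List.sum_cons, List.length_cons]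
    rcases List.mem_cons.mp hx with h | h
    · subst h
      have h1 := list_sum_norm_le (x := x) (l := l) (fun y hy => hd y (List.mem_cons_of_mem _ hy))
      push_cast
      simp only [sub_self, norm_zero]
      linarith
    · have h1 := ih (fun y hy => hd y (List.mem_cons_of_mem _ hy)) h
      have h2 := hd a (by simp)
      rw [dist_eq_norm] at h2
      push_cast
      linarith

lemma bary_dist_le {δ : ℝ} {l : List E} (hd : ∀ x ∈ l, ∀ y ∈ l, dist x y ≤ δ) {x : E}
    (hx : x ∈ l) : dist x (bary l) ≤ (1 - 1 / (l.length : ℝ)) * δ := by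
  have hpos : (0 : ℝ) < l.length := by
    have := List.length_pos_of_mem hx
    exact_mod_cast this
  have h1 : ∀ l' : List E, (l'.map (fun y => y - x)).sum = l'.sum - (l'.length : ℝ) • x := by
    intro l'
    induction l' with
    | nil => simp
    | cons a l' ih =>
      rw [List.map_cons, List.sum_cons, ih, List.sum_cons, List.length_cons]
      push_cast
      rw [add_smul, one_smul]
      abel
  have h2 : bary l - x = (l.length : ℝ)⁻¹ • (l.map (fun y => y - x)).sum := by
    rw [h1, smul_sub, smul_smul, inv_mul_cancel₀ hpos.ne', one_smul]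
    rfl
  have h3 : ‖(l.map (fun y => y - x)).sum‖ ≤ (l.map (fun y => ‖y - x‖)).sum := by
    have : ∀ l' : List E, ‖(l'.map (fun y => y - x)).sum‖ ≤ (l'.map (fun y => ‖y - x‖)).sum := by
      intro l'
      induction l' with
      | nil => simp
      | cons a l' ih =>
        rw [List.map_cons, List.sum_cons, List.map_cons, List.sum_cons]
        exact (norm_add_le _ _).trans (by linarith)
    exact this l
  have h4 := list_sum_norm_le' (x := x) (l := l) (fun y hy => hd y hy x hx) hx
  rw [dist_comm, dist_eq_norm, h2, norm_smul, norm_inv, Real.norm_of_nonneg hpos.le]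
  have h5 : (1 - 1 / (l.length : ℝ)) * δ = (l.length : ℝ)⁻¹ * ((l.length - 1 : ℝ) * δ) := by
    field_simp
  rw [h5]
  exact mul_le_mul_of_nonneg_left (h3.trans h4) (by positivity)

variable {R : Type*} [CommRing R]

/-- The lists in the subdivision of `l` stay in every convex set containing `l`, and their
diameter is at most `(1 - 1/n)` times that of `l`. -/
lemma sd_support {S : Set E} (hS : Convex ℝ S) {n : ℕ} {F : List E → R} {l : List E}
    (hl : l.length = n) (hlS : ∀ x ∈ l, x ∈ S) {δ : ℝ} (hδ : 0 ≤ δ)
    (hd : ∀ x ∈ l, ∀ y ∈ l, dist x y ≤ δ)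
    (hF : ∀ m : List E, m.length = n → (∀ x ∈ m, x ∈ S) →
      (∀ x ∈ m, ∀ y ∈ m, dist x y ≤ (1 - 1 / (n : ℝ)) * δ) → F m = 0) :
    sd bary n F l = 0 := by
  induction n generalizing F l S with
  | zero =>
    rw [sd_zero]
    obtain rfl := List.length_eq_zero_iff.mp hl
    exact hF [] rfl (by simp) (by simp)
  | succ n ih =>
    rw [sd_succ]
    have hne : l ≠ [] := by
      rintro rfl
      simp at hl
    set c := bary l with hc
    have hcS : c ∈ S := bary_mem hS hne hlS
    have hk : (0 : ℝ) ≤ (1 - 1 / ((n + 1 : ℕ) : ℝ)) := by
      have : (1 : ℝ) / ((n + 1 : ℕ) : ℝ) ≤ 1 := by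
        rw [div_le_one (by positivity)]
        push_cast
        linarith [(Nat.cast_nonneg n : (0 : ℝ) ≤ n)]
      linarith
    set S' := S ∩ Metric.closedBall c ((1 - 1 / ((n + 1 : ℕ) : ℝ)) * δ) with hS'
    have hS'c : Convex ℝ S' := hS.inter (convex_closedBall _ _)
    apply bd_eq_zero
    intro l' hl' hlen
    have hsub := hl'.subset
    apply ih hS'c (by omega)
    · intro x hx
      refine ⟨hlS x (hsub hx), ?_⟩
      rw [Metric.mem_closedBall]
      have := bary_dist_le hd (hsub hx)
      rw [hl] at this
      exact this
    · intro x hx y hy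
      exact hd x (hsub hx) y (hsub hy)
    · intro m hm hmS hmd
      apply hF
      · simp [hm]
      · intro x hx
        rcases List.mem_cons.mp hx with rfl | hx
        · exact hcS
        · exact (hmS x hx).1
      · intro x hx y hy
        rcases List.mem_cons.mp hx with rfl | hx'
        · rcases List.mem_cons.mp hy with rfl | hy'
          · rw [dist_self]; positivity
          · rw [dist_comm]; exact (hmS y hy').2
        · rcases List.mem_cons.mp hy with rfl | hy'
          · exact (hmS x hx').2
          · refine (hmd x hx' y hy').trans ?_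
            have hn : 0 < n := by
              rcases Nat.eq_zero_or_pos n with h0 | h0
              · subst h0
                obtain rfl := List.length_eq_zero_iff.mp hm
                simp at hx'
              · exact h0
            apply mul_le_mul_of_nonneg_right _ hδ
            have : (1 : ℝ) / ((n + 1 : ℕ) : ℝ) ≤ 1 / (n : ℝ) := by
              apply one_div_le_one_div_of_le
              · exact_mod_cast hn
              · push_cast; linarith
            linarith

lemma sd_congr {S : Set E} (hS : Convex ℝ S) {n : ℕ} {F G : List E → R} {l : List E}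
    (hl : l.length = n) (hlS : ∀ x ∈ l, x ∈ S)
    (hFG : ∀ m : List E, m.length = n → (∀ x ∈ m, x ∈ S) → F m = G m) :
    sd bary n F l = sd bary n G l := by
  induction n generalizing F G l with
  | zero =>
    rw [sd_zero, sd_zero]
    exact hFG l hl hlS
  | succ n ih =>
    rw [sd_succ, sd_succ]
    have hne : l ≠ [] := by
      rintro rfl
      simp at hl
    apply bd_congr
    intro l' hl' hlen
    apply ih (by omega)
    · intro x hx
      exact hlS x (hl'.subset hx)
    · intro m hm hmS
      apply hFG
      · simp [hm]
      · intro x hx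
        rcases List.mem_cons.mp hx with rfl | hx
        · exact bary_mem hS hne hlS
        · exact hmS x hx

lemma hD_congr {S : Set E} (hS : Convex ℝ S) {n : ℕ} {F G : List E → R} {l : List E}
    (hl : l.length = n) (hlS : ∀ x ∈ l, x ∈ S)
    (hFG : ∀ m : List E, m.length = n + 1 → (∀ x ∈ m, x ∈ S) → F m = G m) :
    hD bary n F l = hD bary n G l := by
  induction n generalizing F G l with
  | zero => rfl
  | succ n ih =>
    rw [hD_succ, hD_succ]
    have hne : l ≠ [] := by
      rintro rfl
      simp at hl
    have hb := bary_mem hS hne hlS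
    have h1 : F (bary l :: l) = G (bary l :: l) := by
      apply hFG
      · simp [hl]
      · intro x hx
        rcases List.mem_cons.mp hx with rfl | hx
        · exact hb
        · exact hlS x hx
    rw [h1]
    congr 1
    apply bd_congr
    intro l' hl' hlen
    apply ih (by omega)
    · intro x hx
      exact hlS x (hl'.subset hx)
    · intro m hm hmS
      apply hFG
      · simp [hm]
      · intro x hx
        rcases List.mem_cons.mp hx with rfl | hx
        · exact hb
        · exact hmS x hx

/-- The iterated subdivision. -/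
noncomputable def sdIter (n : ℕ) (F : List E → R) : ℕ → List E → R
  | 0 => F
  | t + 1 => sd bary n (sdIter n F t)

lemma sdIter_support {S : Set E} (hS : Convex ℝ S) {n : ℕ} {F : List E → R} (t : ℕ)
    {l : List E} (hl : l.length = n) (hlS : ∀ x ∈ l, x ∈ S) {δ : ℝ} (hδ : 0 ≤ δ)
    (hd : ∀ x ∈ l, ∀ y ∈ l, dist x y ≤ δ) (hn : 0 < n)
    (hF : ∀ m : List E, m.length = n → (∀ x ∈ m, x ∈ S) →
      (∀ x ∈ m, ∀ y ∈ m, dist x y ≤ (1 - 1 / (n : ℝ)) ^ t * δ) → F m = 0) :
    sdIter n F t l = 0 := by
  have hk : (0 : ℝ) ≤ 1 - 1 / (n : ℝ) := by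
    have hn' : (1 : ℝ) ≤ n := by exact_mod_cast hn
    have : (1 : ℝ) / (n : ℝ) ≤ 1 := by
      rw [div_le_one (by linarith)]
      exact hn'
    linarith
  induction t generalizing l δ with
  | zero =>
    apply hF l hl hlS
    intro x hx y hy
    simpa using hd x hx y hy
  | succ t ih =>
    apply sd_support hS hl hlS hδ hd
    intro m hm hmS hmd
    apply ih hm hmS (δ := (1 - 1 / (n : ℝ)) * δ) (by positivity) hmd
    intro m' hm' hmS' hmd'
    apply hF m' hm' hmS'
    intro x hx y hy
    refine (hmd' x hx y hy).trans (le_of_eq ?_)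
    ring

end Bary

end Pool.Agent.MP_17e467_an
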