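import Pool.Agent.MP_17e467_an.Rainbow

/-!
A Borsuk–Ulam theorem for the cyclic group of odd prime order `q`, acting on the boundary of the
standard simplex on `ZMod q` by the cyclic shift.
-/

namespace Pool.Agent.MP_17e467_an

open Complex

lemma norm_stdAddChar {q : ℕ} [NeZero q] (x : ZMod q) : ‖ZMod.stdAddChar x‖ = 1 := by
  rw [ZMod.stdAddChar_apply]
  exact Circle.norm_coe _

/-- The (normalised) argument: `z = ‖z‖ exp (2πi tt/q)`. -/
noncomputable def tt (q : ℕ) (z : ℂ) : ℝ := q * arg z / (2 * Real.pi)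

lemma norm_mul_exp_tt {q : ℕ} [NeZero q] (z : ℂ) :
    z = ‖z‖ * exp (I * ((2 * Real.pi * tt q z / q : ℝ) : ℂ)) := by
  have hq : (q : ℝ) ≠ 0 := by exact_mod_cast NeZero.ne q
  have hpi := Real.pi_ne_zero
  have h1 : (2 * Real.pi * tt q z / q : ℝ) = arg z := by
    unfold tt
    field_simp
  rw [h1, mul_comm I, norm_mul_exp_arg_mul_I]

lemma tt_mul {q : ℕ} [NeZero q] {z : ℂ} (hz : z ≠ 0) (ν : ZMod q) :
    ∃ k : ℤ, tt q (ZMod.stdAddChar ν * z) = tt q z + (ν.val : ℝ) + k * q := by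
  have hq : (q : ℝ) ≠ 0 := by exact_mod_cast NeZero.ne q
  have hqc : (q : ℂ) ≠ 0 := by exact_mod_cast NeZero.ne q
  have hpi := Real.pi_ne_zero
  have hpic : (Real.pi : ℂ) ≠ 0 := by exact_mod_cast Real.pi_ne_zero
  have h1 := norm_mul_exp_tt (q := q) (ZMod.stdAddChar ν * z)
  rw [norm_mul, norm_stdAddChar, one_mul] at h1
  have h2 : (ZMod.stdAddChar ν : ℂ) = exp (2 * Real.pi * I * ν.val / q) := by
    rw [ZMod.stdAddChar_apply]; exact ZMod.toCircle_apply ν
  rw [h2] at h1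
  have hnz : (‖z‖ : ℂ) ≠ 0 := by exact_mod_cast (norm_ne_zero_iff.mpr hz)
  have h3 : exp (I * ((2 * Real.pi * tt q (exp (2 * Real.pi * I * ν.val / q) * z) / q : ℝ) : ℂ))
      = exp (2 * Real.pi * I * ν.val / q + I * ((2 * Real.pi * tt q z / q : ℝ) : ℂ)) := by
    rw [exp_add]
    apply mul_left_cancel₀ hnz
    rw [← h1]
    conv_lhs => rw [norm_mul_exp_tt (q := q) z]
    ring
  rw [exp_eq_exp_iff_exists_int] at h3
  obtain ⟨k, hk⟩ := h3
  refine ⟨k, ?_⟩
  rw [← h2] at hk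
  have hI : I ≠ 0 := I_ne_zero
  have h4 : ((tt q (ZMod.stdAddChar ν * z) : ℝ) : ℂ) = ((tt q z + (ν.val : ℝ) + k * q : ℝ) : ℂ) := by
    push_cast at hk ⊢
    field_simp at hk
    have h5 : (2 : ℂ) ≠ 0 := two_ne_zero
    apply mul_left_cancel₀ (mul_ne_zero (mul_ne_zero hI h5) hpic)
    linear_combination (I * 2 * Real.pi) * hk
  exact_mod_cast h4

/-- The label of a complex number. -/
noncomputable def lab (q : ℕ) (z : ℂ) : ZMod q := ((⌊tt q z⌋ : ℤ) : ZMod q)

/-- Which half of the sector. -/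
noncomputable def half (q : ℕ) (z : ℂ) : Bool := decide (Int.fract (tt q z) < 1 / 2)

lemma lab_mul {q : ℕ} [NeZero q] {z : ℂ} (hz : z ≠ 0) (ν : ZMod q) :
    lab q (ZMod.stdAddChar ν * z) = lab q z + ν := by
  obtain ⟨k, hk⟩ := tt_mul hz ν
  unfold lab
  have h1 : tt q z + (ν.val : ℝ) + k * q = tt q z + (((ν.val : ℤ) + k * q : ℤ) : ℝ) := by
    push_cast; ring
  rw [hk, h1, Int.floor_add_intCast]
  push_cast
  simp

lemma half_mul {q : ℕ} [NeZero q] {z : ℂ} (hz : z ≠ 0) (ν : ZMod q) :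
    half q (ZMod.stdAddChar ν * z) = half q z := by
  obtain ⟨k, hk⟩ := tt_mul hz ν
  unfold half
  have h1 : tt q z + (ν.val : ℝ) + k * q = tt q z + (((ν.val : ℤ) + k * q : ℤ) : ℝ) := by
    push_cast; ring
  rw [hk, h1, Int.fract_add_intCast]

lemma abs_sin_ge {q : ℕ} (hq0 : 0 < q) {x : ℝ} (hx : ∀ k : ℤ, 1 / 2 ≤ |x - k * q|) :
    1 / (q : ℝ) ≤ |Real.sin (Real.pi * x / q)| := by
  have hq : (0 : ℝ) < q := by exact_mod_cast hq0
  have hpi := Real.pi_pos
  set k := round (x / q) with hk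
  have h1 : |x / q - k| ≤ 1 / 2 := abs_sub_round _
  have h2 : Real.pi * x / q = Real.pi * (x / q - k) + k * Real.pi := by ring
  have h3 : |Real.sin (Real.pi * x / q)| = |Real.sin (Real.pi * (x / q - k))| := by
    rw [h2, Real.sin_add_int_mul_pi, abs_mul]
    have : |((-1 : ℝ)) ^ k| = 1 := by
      rcases Int.even_or_odd k with h | h
      · rw [h.neg_one_zpow, abs_one]
      · rw [h.neg_one_zpow, abs_neg, abs_one]
    rw [this, one_mul]
  rw [h3]
  have h4 : |Real.pi * (x / q - k)| ≤ Real.pi / 2 := by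
    rw [abs_mul, abs_of_pos hpi]
    nlinarith
  refine le_trans ?_ (Real.mul_abs_le_abs_sin h4)
  rw [abs_mul, abs_of_pos hpi]
  have h5 : |x / q - k| = |x - k * q| / q := by
    rw [← abs_of_pos hq, ← abs_div, abs_of_pos hq]
    congr 1
    field_simp
  rw [h5]
  have h6 := hx k
  rw [div_le_iff₀ hq]
  have h7 : 2 / Real.pi * (Real.pi * (|x - k * q| / q)) * q = 2 * |x - k * q| := by
    field_simp
  rw [h7]
  linarith

lemma dist_ge {q : ℕ} [NeZero q] {z z' : ℂ} {δ : ℝ} (hz : δ ≤ ‖z‖)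
    (hh : half q z = half q z') (hl : lab q z ≠ lab q z') : δ / q ≤ ‖z - z'‖ := by
  have hq0 : 0 < q := Nat.pos_of_ne_zero (NeZero.ne q)
  have hq : (0 : ℝ) < q := by exact_mod_cast hq0
  have hpi := Real.pi_pos
  set t := tt q z with ht
  set t' := tt q z' with ht'
  -- the distance of `t - t'` to the multiples of `q`
  have h1 : ∀ k : ℤ, 1 / 2 ≤ |(t - t') - k * q| := by
    intro k
    have h2 : (⌊t⌋ - ⌊t'⌋ - k * q : ℤ) ≠ 0 := by
      intro h0
      apply hl
      unfold lab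
      have h3 : ⌊t⌋ = ⌊t'⌋ + k * q := by linarith
      rw [← ht, ← ht', h3]
      push_cast
      simp
    have h3 : (1 : ℝ) ≤ |((⌊t⌋ - ⌊t'⌋ - k * q : ℤ) : ℝ)| := by
      rw [← Int.cast_abs]
      exact_mod_cast Int.one_le_abs h2
    have h4 : |Int.fract t - Int.fract t'| < 1 / 2 := by
      have a1 := Int.fract_nonneg t
      have a2 := Int.fract_lt_one t
      have a3 := Int.fract_nonneg t'
      have a4 := Int.fract_lt_one t'
      unfold half at hh
      rw [← ht, ← ht', decide_eq_decide] at hh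
      rw [abs_lt]
      by_cases hc : Int.fract t < 1 / 2
      · have := hh.mp hc
        constructor <;> linarith
      · have h5 : ¬ Int.fract t' < 1 / 2 := fun h => hc (hh.mpr h)
        push Not at hc h5
        constructor <;> linarith
    have h5 : (t - t') - k * q = ((⌊t⌋ - ⌊t'⌋ - k * q : ℤ) : ℝ) + (Int.fract t - Int.fract t') := by
      unfold Int.fract
      push_cast
      ring
    rw [h5]
    have h6 := abs_sub_abs_le_abs_sub ((⌊t⌋ - ⌊t'⌋ - k * q : ℤ) : ℝ)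
      (-(Int.fract t - Int.fract t'))
    rw [abs_neg, sub_neg_eq_add] at h6
    linarith
  have h2 := abs_sin_ge hq0 h1
  -- compare unit vectors
  set u : ℂ := exp (I * ((2 * Real.pi * t / q : ℝ) : ℂ)) with hu
  set u' : ℂ := exp (I * ((2 * Real.pi * t' / q : ℝ) : ℂ)) with hu'
  have hz1 : z = ‖z‖ * u := norm_mul_exp_tt z
  have hz2 : z' = ‖z'‖ * u' := norm_mul_exp_tt z'
  have hnu' : ‖u'‖ = 1 := by
    rw [hu', mul_comm]; exact norm_exp_ofReal_mul_I _
  have h3 : u - u' = u' * (exp (I * ((2 * Real.pi * (t - t') / q : ℝ) : ℂ)) - 1) := by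
    rw [mul_sub, mul_one, hu, hu', ← exp_add]
    congr 2
    push_cast
    ring
  have h4 : ‖u - u'‖ = 2 * |Real.sin (Real.pi * (t - t') / q)| := by
    rw [h3, norm_mul, hnu', one_mul, Complex.norm_exp_I_mul_ofReal_sub_one, norm_mul,
      Real.norm_eq_abs, Real.norm_eq_abs, abs_two]
    congr 3
    ring
  have h5 : ‖z‖ * ‖u - u'‖ ≤ 2 * ‖z - z'‖ := by
    have e1 : ‖z‖ * ‖u - u'‖ = ‖(z - z') + ((‖z'‖ - ‖z‖ : ℝ) : ℂ) * u'‖ := by
      have e2 : ‖z‖ * ‖u - u'‖ = ‖(‖z‖ : ℂ) * (u - u')‖ := by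
        rw [norm_mul, Complex.norm_real, norm_norm]
      rw [e2]
      congr 1
      have e3 : z - z' = ‖z‖ * u - ‖z'‖ * u' := by rw [← hz1, ← hz2]
      rw [e3]
      push_cast
      ring
    rw [e1]
    refine (norm_add_le _ _).trans ?_
    rw [norm_mul, hnu', mul_one, Complex.norm_real, Real.norm_eq_abs]
    have := abs_norm_sub_norm_le z' z
    rw [norm_sub_rev z' z] at this
    linarith
  rw [h4] at h5
  have h6 : ‖z‖ * (2 * (1 / (q : ℝ))) ≤ ‖z‖ * (2 * |Real.sin (Real.pi * (t - t') / q)|) := by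
    apply mul_le_mul_of_nonneg_left _ (norm_nonneg z)
    linarith
  have h7 : δ / q ≤ ‖z‖ / q := div_le_div_of_nonneg_right hz hq.le
  have h8 : ‖z‖ * (2 * (1 / (q : ℝ))) = 2 * (‖z‖ / q) := by ring
  linarith

lemma isCompact_bdSimplex (q : ℕ) [NeZero q] : IsCompact (bdSimplex q) := by
  have h1 : bdSimplex q = stdSimplex ℝ (ZMod q) ∩ ⋃ k : ZMod q, {p | p k = 0} := by
    ext p
    simp only [bdSimplex, stdSimplex, Set.mem_ofPred_eq, Set.mem_inter_iff, Set.mem_iUnion]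
    tauto
  rw [h1]
  apply (isCompact_stdSimplex ℝ (ZMod q)).inter_right
  apply isClosed_iUnion_of_finite
  intro k
  exact isClosed_eq (continuous_apply k) continuous_const

lemma rot_mem_bdSimplex {q : ℕ} [NeZero q] {p : ZMod q → ℝ} (hp : p ∈ bdSimplex q) :
    rot p ∈ bdSimplex q := by
  obtain ⟨h1, h2, k, h3⟩ := hp
  exact facet_subset q (k + 1) (facet_rot ⟨h1, h2, h3⟩)

theorem zq_borsuk_ulam (q : ℕ) [Fact q.Prime] (hq : q ≠ 2) {ι : Type} [Fintype ι]
    (hcard : 2 * Fintype.card ι + 2 ≤ q) (ν : ι → ZMod q) (hν : ∀ i, ν i ≠ 0)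
    (φ : ι → (ZMod q → ℝ) → ℂ) (hcont : ∀ i, ContinuousOn (φ i) (bdSimplex q))
    (heq : ∀ i, ∀ p ∈ bdSimplex q, φ i (rot p) = ZMod.stdAddChar (ν i) * φ i p) :
    ∃ p ∈ bdSimplex q, ∀ i, φ i p = 0 := by
  classical
  have hprime : q.Prime := Fact.out
  have hq0 : 0 < q := hprime.pos
  have hqR : (0 : ℝ) < q := by exact_mod_cast hq0
  by_contra hcon
  push Not at hcon
  have hne : (bdSimplex q).Nonempty := by
    refine ⟨vtx q 0, facet_subset q 1 (vtx_facet q ?_)⟩
    have : Fact (1 < q) := ⟨hprime.one_lt⟩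
    exact one_ne_zero
  have hE := isCompact_bdSimplex q
  -- lower bound
  obtain ⟨p0, hp0, hmin⟩ := hE.exists_isMinOn hne
    (f := fun p => ∑ i, ‖φ i p‖) (continuousOn_finsetSum _ (fun i _ => (hcont i).norm))
  set δ0 := ∑ i, ‖φ i p0‖ with hδ0
  have hδ0pos : 0 < δ0 := by
    obtain ⟨i, hi⟩ := hcon p0 hp0
    exact Finset.sum_pos' (fun _ _ => norm_nonneg _) ⟨i, Finset.mem_univ i, norm_pos_iff.mpr hi⟩
  set δ := δ0 / (Fintype.card ι + 1) with hδ
  have hδpos : 0 < δ := by positivity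
  have hbig : ∀ p ∈ bdSimplex q, ∃ i, δ ≤ ‖φ i p‖ := by
    intro p hp
    by_contra hc
    push Not at hc
    have h1 : δ0 ≤ ∑ i, ‖φ i p‖ := hmin hp
    have h2 : ∑ i, ‖φ i p‖ ≤ Fintype.card ι * δ := by
      have := Finset.sum_le_card_nsmul Finset.univ (fun i => ‖φ i p‖) δ (fun i _ => (hc i).le)
      simpa using this
    have h3 : (Fintype.card ι : ℝ) * δ < δ0 := by
      rw [hδ, mul_div_assoc', div_lt_iff₀ (by positivity)]
      nlinarith
    linarith
  obtain ⟨i0, -⟩ := hbig p0 hp0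
  -- the selected index
  let sel : Set ι → ι := fun s => if h : s.Nonempty then h.some else i0
  have hsel : ∀ s : Set ι, s.Nonempty → sel s ∈ s := by
    intro s hs
    simp only [sel, dif_pos hs]
    exact hs.some_mem
  let b : (ZMod q → ℝ) → ι := fun p => sel {i | δ ≤ ‖φ i p‖}
  have hb : ∀ p ∈ bdSimplex q, δ ≤ ‖φ (b p) p‖ := by
    intro p hp
    exact hsel {i | δ ≤ ‖φ i p‖} (hbig p hp)
  have hbrot : ∀ p ∈ bdSimplex q, b (rot p) = b p := by
    intro p hp
    simp only [b]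
    congr 1
    ext i
    simp only [Set.mem_ofPred_eq]
    rw [heq i p hp, norm_mul, norm_stdAddChar, one_mul]
  have hbne : ∀ p ∈ bdSimplex q, φ (b p) p ≠ 0 := by
    intro p hp h0
    have := hb p hp
    rw [h0, norm_zero] at this
    linarith
  -- the labelling
  let μ : (ZMod q → ℝ) → ZMod q := fun p => (ν (b p))⁻¹ * lab q (φ (b p) p)
  have hμ : ∀ p ∈ bdSimplex q, μ (rot p) = μ p + 1 := by
    intro p hp
    simp only [μ]
    rw [hbrot p hp, heq _ p hp, lab_mul (hbne p hp), mul_add, inv_mul_cancel₀ (hν _)]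
  -- uniform continuity
  have hcontΦ : ContinuousOn (fun p => (fun i => φ i p : ι → ℂ)) (bdSimplex q) :=
    continuousOn_pi.mpr hcont
  have hunif := hE.uniformContinuousOn_of_continuous hcontΦ
  rw [Metric.uniformContinuousOn_iff] at hunif
  obtain ⟨ρ, hρ, hclose⟩ := hunif (δ / q) (by positivity)
  obtain ⟨m, hmlen, hmE, hmd, hmn⟩ := exists_rainbow q hq hμ (ρ := ρ / 2) (by positivity)
  have hmnodup : m.Nodup := List.Nodup.of_map _ hmn
  have hcardm : m.toFinset.card = q - 1 := by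
    rw [List.toFinset_card_of_nodup hmnodup, hmlen]
  have hpig : ∃ x ∈ m.toFinset, ∃ y ∈ m.toFinset, x ≠ y ∧
      (b x, half q (φ (b x) x)) = (b y, half q (φ (b y) y)) := by
    apply Finset.exists_ne_map_eq_of_card_lt_of_maps_to (t := (Finset.univ : Finset (ι × Bool)))
    · rw [hcardm, Finset.card_univ, Fintype.card_prod, Fintype.card_bool]
      omega
    · intro x _
      exact Finset.mem_univ _
  obtain ⟨x, hx, y, hy, hxy, hbe⟩ := hpig
  rw [List.mem_toFinset] at hx hy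
  rw [Prod.mk.injEq] at hbe
  obtain ⟨hb1, hb2⟩ := hbe
  have hμne : μ x ≠ μ y := by
    intro h
    exact hxy (List.inj_on_of_nodup_map hmn hx hy h)
  rw [← hb1] at hb2
  have hlab : lab q (φ (b x) x) ≠ lab q (φ (b x) y) := by
    intro h
    apply hμne
    simp only [μ]
    rw [← hb1, h]
  have h1 := dist_ge (hb x (hmE x hx)) hb2 hlab
  have h2 := hclose x (hmE x hx) y (hmE y hy) (lt_of_le_of_lt (hmd x hx y hy) (by linarith))
  have h3 := dist_le_pi_dist (fun i => φ i x) (fun i => φ i y) (b x)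
  rw [dist_eq_norm] at h3
  linarith

end Pool.Agent.MP_17e467_an
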